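import Pool.Agent.H555LP.Defs

namespace H555LP

open Set

variable {d : ℕ}

theorem poly_convex {B P : Set (Fin d → ℝ)} (h : P ∈ PolyIn B) : Convex ℝ P := by
  obtain ⟨-, -, W, -, -, rfl⟩ := h
  exact convex_convexHull ℝ W

theorem poly_compact {B P : Set (Fin d → ℝ)} (h : P ∈ PolyIn B) : IsCompact P := by
  obtain ⟨-, -, W, hW, -, rfl⟩ := h
  exact hW.isCompact_convexHull ℝ

theorem poly_nonempty {B P : Set (Fin d → ℝ)} (h : P ∈ PolyIn B) : P.Nonempty := by
  obtain ⟨-, ⟨x, hx⟩, -⟩ := h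
  exact ⟨x, interior_subset hx⟩

theorem poly_ext_finite {B P : Set (Fin d → ℝ)} (h : P ∈ PolyIn B) :
    (P.extremePoints ℝ).Finite := by
  obtain ⟨-, -, W, hW, -, rfl⟩ := h
  exact hW.subset extremePoints_convexHull_subset

theorem poly_ext_lat {B P : Set (Fin d → ℝ)} (h : P ∈ PolyIn B) :
    ∀ x ∈ P.extremePoints ℝ, IsLat x := by
  obtain ⟨-, -, W, hW, hl, rfl⟩ := h
  exact fun x hx => hl x (extremePoints_convexHull_subset hx)

theorem conv_ext_of_finite {W : Set (Fin d → ℝ)} (hW : W.Finite) :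
    convexHull ℝ ((convexHull ℝ W).extremePoints ℝ) = convexHull ℝ W := by
  have h1 := closure_convexHull_extremePoints (hW.isCompact_convexHull ℝ) (convex_convexHull ℝ W)
  have h2 : (((convexHull ℝ W).extremePoints ℝ)).Finite :=
    hW.subset extremePoints_convexHull_subset
  rw [(h2.isClosed_convexHull ℝ).closure_eq] at h1
  exact h1

theorem poly_conv_ext {B P : Set (Fin d → ℝ)} (h : P ∈ PolyIn B) :
    convexHull ℝ (P.extremePoints ℝ) = P := by
  obtain ⟨-, -, W, hW, hl, rfl⟩ := h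
  exact conv_ext_of_finite hW

theorem poly_mono {B C : Set (Fin d → ℝ)} (hBC : B ⊆ C) : PolyIn B ⊆ PolyIn C :=
  fun _ h => ⟨h.1.trans hBC, h.2⟩

theorem cube_convex (d k : ℕ) : Convex ℝ (cube d k) := by
  have : cube d k = Set.Icc 0 (fun _ => (k : ℝ)) := by
    ext x
    simp only [cube, mem_ofPred_eq, mem_Icc, Pi.le_def, Pi.zero_apply]
    exact ⟨fun h => ⟨fun i => (h i).1, fun i => (h i).2⟩, fun h i => ⟨h.1 i, h.2 i⟩⟩
  rw [this]
  exact convex_Icc _ _

/-- The lattice points of the cube. -/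
noncomputable def grid (d k : ℕ) : Finset (Fin d → ℝ) :=
  (Finset.univ : Finset (Fin d → Fin (k + 1))).image (fun f i => ((f i : ℕ) : ℝ))

theorem grid_card (d k : ℕ) : (grid d k).card ≤ (k + 1) ^ d := by
  refine Finset.card_image_le.trans ?_
  simp

theorem mem_grid {d k : ℕ} {x : Fin d → ℝ} : x ∈ grid d k ↔ IsLat x ∧ x ∈ cube d k := by
  constructor
  · intro h
    simp only [grid, Finset.mem_image, Finset.mem_univ, true_and] at h
    obtain ⟨f, rfl⟩ := h
    refine ⟨fun i => ⟨(f i : ℕ), by simp⟩, fun i => ⟨by positivity, ?_⟩⟩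
    have := (f i).2
    have h2 : (f i : ℕ) ≤ k := Nat.lt_succ_iff.mp this
    show ((f i : ℕ) : ℝ) ≤ k
    exact_mod_cast h2
  · rintro ⟨h1, h2⟩
    choose n hn using h1
    simp only [grid, Finset.mem_image, Finset.mem_univ, true_and]
    have h0 : ∀ i, 0 ≤ n i := by
      intro i
      have := (h2 i).1
      rw [hn i] at this
      exact_mod_cast this
    have h3 : ∀ i, n i ≤ k := by
      intro i
      have := (h2 i).2
      rw [hn i] at this
      exact_mod_cast this
    refine ⟨fun i => ⟨(n i).toNat, ?_⟩, ?_⟩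
    · have := h0 i
      have := h3 i
      omega
    · funext i
      rw [hn i]
      have := h0 i
      simp only
      have h4 : ((n i).toNat : ℤ) = n i := Int.toNat_of_nonneg this
      exact_mod_cast h4

theorem poly_ext_sub_grid {k : ℕ} {P : Set (Fin d → ℝ)} (h : P ∈ PolyIn (cube d k)) :
    P.extremePoints ℝ ⊆ (grid d k : Set (Fin d → ℝ)) := by
  intro x hx
  exact mem_grid.2 ⟨poly_ext_lat h x hx, h.1 (extremePoints_subset hx)⟩

theorem poly_ext_inj {B : Set (Fin d → ℝ)} :
    Set.InjOn (fun P : Set (Fin d → ℝ) => P.extremePoints ℝ) (PolyIn B) := by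
  intro P hP Q hQ h
  rw [← poly_conv_ext hP, ← poly_conv_ext hQ]
  exact congrArg _ h

theorem poly_finite (d k : ℕ) : (PolyIn (cube d k)).Finite := by
  refine Set.Finite.of_injOn (f := fun P : Set (Fin d → ℝ) => P.extremePoints ℝ)
    (t := 𝒫 (grid d k : Set (Fin d → ℝ))) ?_ poly_ext_inj (grid d k).finite_toSet.powerset
  intro P hP
  exact poly_ext_sub_grid hP

theorem poly_finite' {k : ℕ} {B : Set (Fin d → ℝ)} (hB : B ⊆ cube d k) : (PolyIn B).Finite :=
  (poly_finite d k).subset (poly_mono hB)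

/-- An insertion point lies outside of the polytope, provided that something changes. -/
theorem ins_notMem {B P Q : Set (Fin d → ℝ)} (hP : P ∈ PolyIn B) {x : Fin d → ℝ}
    (hI : IsInsertion P x Q) (hne : P ≠ Q) : x ∉ P := by
  intro hx
  apply hne
  have : P ∪ {x} = P := by simpa using hx
  rw [hI.1, this]
  exact (poly_convex hP).convexHull_eq.symm

theorem ins_sub {P Q : Set (Fin d → ℝ)} {x : Fin d → ℝ} (hI : IsInsertion P x Q) : P ⊆ Q := by
  rw [hI.1]
  exact (subset_union_left).trans (subset_convexHull ℝ _)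

theorem ins_ext {B P Q : Set (Fin d → ℝ)} (hP : P ∈ PolyIn B) {x : Fin d → ℝ}
    (hI : IsInsertion P x Q) (hne : P ≠ Q) :
    P.extremePoints ℝ = Q.extremePoints ℝ \ {x} := by
  rw [hI.2]
  ext y
  simp only [mem_sdiff, mem_union, mem_singleton_iff]
  constructor
  · intro hy
    refine ⟨Or.inl hy, ?_⟩
    rintro rfl
    exact ins_notMem hP hI hne (extremePoints_subset hy)
  · rintro ⟨h1 | h1, h2⟩
    · exact h1
    · exact absurd h1 h2

theorem ins_det {B P Q : Set (Fin d → ℝ)} (hP : P ∈ PolyIn B) {x : Fin d → ℝ}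
    (hI : IsInsertion P x Q) (hne : P ≠ Q) :
    P = convexHull ℝ (Q.extremePoints ℝ \ {x}) := by
  rw [← ins_ext hP hI hne, poly_conv_ext hP]

end H555LP
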