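import Pool.Agent.H555LP.Basic

namespace H555LP

open Set

/-- The number of small subsets of a finite set. -/
theorem count_small {α : Type*} (G : Finset α) (N : ℕ) (F : Set (Set α))
    (h : ∀ A ∈ F, A ⊆ (G : Set α) ∧ A.ncard ≤ N) : F.ncard ≤ (G.card + 1) ^ N := by
  classical
  let Ψ : (Fin N → Option G) → Set α := fun g => {x | ∃ i, ∃ y : G, g i = some y ∧ (y : α) = x}
  have hsub : F ⊆ Set.range Ψ := by
    intro A hA
    obtain ⟨h1, h2⟩ := h A hA
    have hfin : A.Finite := G.finite_toSet.subset h1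
    let B : Finset α := hfin.toFinset
    have hB : B.card ≤ N := by
      rw [← Set.ncard_eq_toFinset_card A hfin]
      exact h2
    let e := B.equivFin
    refine ⟨fun i => if hi : (i : ℕ) < B.card then
      some ⟨(e.symm ⟨i, hi⟩ : α), h1 (hfin.mem_toFinset.1 (e.symm ⟨i, hi⟩).2)⟩ else none, ?_⟩
    ext x
    simp only [Ψ, mem_ofPred_eq]
    constructor
    · rintro ⟨i, y, hy, rfl⟩
      by_cases hi : (i : ℕ) < B.card
      · rw [dif_pos hi] at hy
        have := Option.some.inj hy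
        rw [← this]
        exact hfin.mem_toFinset.1 (e.symm ⟨i, hi⟩).2
      · rw [dif_neg hi] at hy
        cases hy
    · intro hx
      have hx' : x ∈ B := hfin.mem_toFinset.2 hx
      have hi : ((e ⟨x, hx'⟩ : Fin B.card) : ℕ) < B.card := (e ⟨x, hx'⟩).2
      refine ⟨⟨e ⟨x, hx'⟩, lt_of_lt_of_le hi hB⟩, ⟨x, h1 hx⟩, ?_, rfl⟩
      simp only
      rw [dif_pos hi]
      congr 2
      simp
  calc F.ncard ≤ (Set.range Ψ).ncard := Set.ncard_le_ncard hsub (Set.finite_range Ψ)
    _ ≤ Nat.card (Fin N → Option G) := by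
        rw [← Set.image_univ]
        refine (Set.ncard_image_le (Set.toFinite _)).trans ?_
        rw [Set.ncard_univ]
    _ = (G.card + 1) ^ N := by
        rw [Nat.card_eq_fintype_card]
        simp

/-- The number of lattice polytopes in the cube with few vertices. -/
theorem count_few (d k N : ℕ) :
    {P ∈ PolyIn (cube d k) | (P.extremePoints ℝ).ncard ≤ N}.ncard ≤ ((k + 1) ^ d + 1) ^ N := by
  have h1 : {P ∈ PolyIn (cube d k) | (P.extremePoints ℝ).ncard ≤ N}.ncard =
      ((fun P : Set (Fin d → ℝ) => P.extremePoints ℝ) ''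
        {P ∈ PolyIn (cube d k) | (P.extremePoints ℝ).ncard ≤ N}).ncard := by
    rw [Set.InjOn.ncard_image (poly_ext_inj.mono (Set.sep_subset _ _))]
  rw [h1]
  refine (count_small (grid d k) N _ ?_).trans ?_
  · rintro A ⟨P, ⟨hP, hN⟩, rfl⟩
    exact ⟨poly_ext_sub_grid hP, hN⟩
  · exact Nat.pow_le_pow_left (Nat.succ_le_succ (grid_card d k)) N

/-- The number of points of a strictly concave chain in a box of side `k`. -/
theorem chain_bound (C : Finset (ℤ × ℤ)) (k R : ℕ) (hR : 1 ≤ R)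
    (hbox : ∀ v ∈ C, (0 ≤ v.1 ∧ v.1 ≤ k) ∧ (0 ≤ v.2 ∧ v.2 ≤ k))
    (hexp : ∀ v ∈ C, ∃ a b : ℝ, 0 ≤ a ∧ 0 ≤ b ∧
      ∀ w ∈ C, w ≠ v → a * w.1 + b * w.2 < a * v.1 + b * v.2) :
    C.card ≤ 1 + R ^ 2 + 2 * (k / R + 1) := by
  classical
  have hmono : ∀ v ∈ C, ∀ w ∈ C, w ≠ v → ¬ (v.1 ≤ w.1 ∧ v.2 ≤ w.2) := by
    rintro v hv w hw hne ⟨h1, h2⟩
    obtain ⟨a, b, ha, hb, hab⟩ := hexp v hv
    have h3 := hab w hw hne
    have h4 : (v.1 : ℝ) ≤ w.1 := by exact_mod_cast h1
    have h5 : (v.2 : ℝ) ≤ w.2 := by exact_mod_cast h2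
    nlinarith [mul_le_mul_of_nonneg_left h4 ha, mul_le_mul_of_nonneg_left h5 hb]
  have hdich : ∀ v ∈ C, ∀ w ∈ C, w ≠ v → (v.1 < w.1 ∧ w.2 < v.2) ∨ (w.1 < v.1 ∧ v.2 < w.2) := by
    intro v hv w hw hne
    have h1 := hmono v hv w hw hne
    have h2 := hmono w hw v hv (Ne.symm hne)
    omega
  have hlt : ∀ v ∈ C, ∀ w ∈ C, v.1 < w.1 → w.2 < v.2 := by
    intro v hv w hw h
    have hne : w ≠ v := by
      rintro rfl
      exact lt_irrefl _ h
    rcases hdich v hv w hw hne with h1 | h1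
    · exact h1.2
    · omega
  have hmid : ∀ u ∈ C, ∀ v ∈ C, ∀ w ∈ C, u.1 < v.1 → v.1 < w.1 → ∃ a b : ℝ, 0 < a ∧ 0 < b ∧
      b * ((u.2 : ℝ) - v.2) < a * ((v.1 : ℝ) - u.1) ∧
      a * ((w.1 : ℝ) - v.1) < b * ((v.2 : ℝ) - w.2) := by
    intro u hu v hv w hw h1 h2
    obtain ⟨a, b, ha, hb, hab⟩ := hexp v hv
    have hu1 := hab u hu (by rintro rfl; exact lt_irrefl _ h1)
    have hw1 := hab w hw (by rintro rfl; exact lt_irrefl _ h2)
    have h3 : (u.1 : ℝ) < v.1 := by exact_mod_cast h1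
    have h4 : (v.1 : ℝ) < w.1 := by exact_mod_cast h2
    have h5 : (v.2 : ℝ) < u.2 := by exact_mod_cast hlt u hu v hv h1
    have h6 : (w.2 : ℝ) < v.2 := by exact_mod_cast hlt v hv w hw h2
    have hA : b * ((u.2 : ℝ) - v.2) < a * ((v.1 : ℝ) - u.1) := by linarith
    have hB : a * ((w.1 : ℝ) - v.1) < b * ((v.2 : ℝ) - w.2) := by linarith
    have hapos : 0 < a := by
      rcases ha.lt_or_eq with h | h
      · exact h
      · exfalso
        rw [← h, zero_mul] at hA
        have : 0 ≤ b * ((u.2 : ℝ) - v.2) := mul_nonneg hb (by linarith)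
        linarith
    have hbpos : 0 < b := by
      rcases hb.lt_or_eq with h | h
      · exact h
      · exfalso
        rw [← h, zero_mul] at hB
        have : 0 ≤ a * ((w.1 : ℝ) - v.1) := mul_nonneg ha (by linarith)
        linarith
    exact ⟨a, b, hapos, hbpos, hA, hB⟩
  have hsex : ∀ c : ℤ × ℤ, ∃ s : ℤ × ℤ, (c ∈ C ∧ ∃ w ∈ C, c.1 < w.1) →
      s ∈ C ∧ c.1 < s.1 ∧ ∀ w ∈ C, c.1 < w.1 → s.1 ≤ w.1 := by
    intro c
    by_cases h : c ∈ C ∧ ∃ w ∈ C, c.1 < w.1
    · obtain ⟨hc, w, hw, hcw⟩ := h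
      obtain ⟨s, hs, hmin⟩ := Finset.exists_min_image (C.filter (fun w => c.1 < w.1))
        (fun w => w.1) ⟨w, Finset.mem_filter.2 ⟨hw, hcw⟩⟩
      rw [Finset.mem_filter] at hs
      exact ⟨s, fun _ => ⟨hs.1, hs.2, fun w hw h => hmin w (Finset.mem_filter.2 ⟨hw, h⟩)⟩⟩
    · exact ⟨c, fun h' => absurd h' h⟩
  choose s hs using hsex
  let C' := C.filter (fun c => ∃ w ∈ C, c.1 < w.1)
  have hC' : ∀ c, c ∈ C' ↔ c ∈ C ∧ ∃ w ∈ C, c.1 < w.1 := fun c => Finset.mem_filter
  have hcard : C.card ≤ C'.card + 1 := by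
    have h1 : (C \ C').card ≤ 1 := by
      rw [Finset.card_le_one]
      intro a ha b hb
      rw [Finset.mem_sdiff, hC'] at ha hb
      by_contra hne
      rcases hdich a ha.1 b hb.1 (Ne.symm hne) with h | h
      · exact ha.2 ⟨ha.1, b, hb.1, h.1⟩
      · exact hb.2 ⟨hb.1, a, ha.1, h.1⟩
    have h2 : C.card ≤ C'.card + (C \ C').card := by
      rw [← Finset.card_union_of_disjoint Finset.disjoint_sdiff]
      exact Finset.card_le_card (by
        intro x hx
        by_cases h : x ∈ C'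
        · exact Finset.mem_union_left _ h
        · exact Finset.mem_union_right _ (Finset.mem_sdiff.2 ⟨hx, h⟩))
    omega
  let C1 := C'.filter (fun c => (R : ℤ) ≤ (s c).1 - c.1)
  let C2 := C'.filter (fun c => (R : ℤ) ≤ c.2 - (s c).2)
  let C3 := C'.filter (fun c => (s c).1 - c.1 < R ∧ c.2 - (s c).2 < R)
  have hcov : C'.card ≤ C1.card + C2.card + C3.card := by
    have : C' ⊆ (C1 ∪ C2) ∪ C3 := by
      intro c hc
      simp only [C1, C2, C3, Finset.mem_union, Finset.mem_filter]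
      by_cases h1 : (R : ℤ) ≤ (s c).1 - c.1
      · exact Or.inl (Or.inl ⟨hc, h1⟩)
      · by_cases h2 : (R : ℤ) ≤ c.2 - (s c).2
        · exact Or.inl (Or.inr ⟨hc, h2⟩)
        · exact Or.inr ⟨hc, not_le.1 h1, not_le.1 h2⟩
    calc C'.card ≤ ((C1 ∪ C2) ∪ C3).card := Finset.card_le_card this
      _ ≤ (C1 ∪ C2).card + C3.card := Finset.card_union_le _ _
      _ ≤ C1.card + C2.card + C3.card := by
          have := Finset.card_union_le C1 C2
          omega
  have hRpos : (0 : ℤ) < R := by exact_mod_cast hR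
  have hb1 : C1.card ≤ k / R + 1 := by
    rw [← Finset.card_range (k / R + 1)]
    refine Finset.card_le_card_of_injOn (fun c => (c.1 / R).toNat) ?_ ?_
    · intro c hc
      rw [Finset.mem_coe, Finset.mem_filter] at hc
      have hcC := ((hC' c).1 hc.1).1
      have hb := (hbox c hcC).1
      rw [Finset.mem_coe, Finset.mem_range]
      have h1 : c.1 / R ≤ (k : ℤ) / R := Int.ediv_le_ediv hRpos hb.2
      have h2 : (0 : ℤ) ≤ c.1 / R := Int.ediv_nonneg hb.1 hRpos.le
      have h3 : ((k / R : ℕ) : ℤ) = (k : ℤ) / R := by push_cast; rfl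
      show (c.1 / (R : ℤ)).toNat < k / R + 1
      omega
    · intro c hc c' hc' heq
      rw [Finset.mem_coe, Finset.mem_filter] at hc hc'
      have hcC := (hC' c).1 hc.1
      have hcC' := (hC' c').1 hc'.1
      have hb := (hbox c hcC.1).1
      have hb' := (hbox c' hcC'.1).1
      have h2 : (0 : ℤ) ≤ c.1 / R := Int.ediv_nonneg hb.1 hRpos.le
      have h2' : (0 : ℤ) ≤ c'.1 / R := Int.ediv_nonneg hb'.1 hRpos.le
      have heq' : c.1 / (R : ℤ) = c'.1 / R := by
        simp only at heq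
        omega
      by_contra hne
      rcases hdich c hcC.1 c' hcC'.1 (Ne.symm hne) with h | h
      · have h3 := (hs c hcC).2.2 c' hcC'.1 h.1
        have h4 : c.1 + 1 * R ≤ c'.1 := by linarith [hc.2]
        have h5 := Int.ediv_le_ediv hRpos h4
        rw [Int.add_mul_ediv_right _ _ (ne_of_gt hRpos)] at h5
        omega
      · have h3 := (hs c' hcC').2.2 c hcC.1 h.1
        have h4 : c'.1 + 1 * R ≤ c.1 := by linarith [hc'.2]
        have h5 := Int.ediv_le_ediv hRpos h4
        rw [Int.add_mul_ediv_right _ _ (ne_of_gt hRpos)] at h5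
        omega
  have hmono2 : ∀ c ∈ C', ∀ c' ∈ C', c.1 < c'.1 → c'.2 ≤ (s c).2 := by
    intro c hc c' hc' h
    have hcC := (hC' c).1 hc
    have hcC' := (hC' c').1 hc'
    have h1 := hs c hcC
    have h3 := h1.2.2 c' hcC'.1 h
    by_cases he : s c = c'
    · rw [he]
    · rcases hdich (s c) h1.1 c' hcC'.1 (Ne.symm he) with h4 | h4
      · exact h4.2.le
      · omega
  have hb2 : C2.card ≤ k / R + 1 := by
    rw [← Finset.card_range (k / R + 1)]
    refine Finset.card_le_card_of_injOn (fun c => (c.2 / R).toNat) ?_ ?_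
    · intro c hc
      rw [Finset.mem_coe, Finset.mem_filter] at hc
      have hcC := ((hC' c).1 hc.1).1
      have hb := (hbox c hcC).2
      rw [Finset.mem_coe, Finset.mem_range]
      have h1 : c.2 / R ≤ (k : ℤ) / R := Int.ediv_le_ediv hRpos hb.2
      have h2 : (0 : ℤ) ≤ c.2 / R := Int.ediv_nonneg hb.1 hRpos.le
      have h3 : ((k / R : ℕ) : ℤ) = (k : ℤ) / R := by push_cast; rfl
      show (c.2 / (R : ℤ)).toNat < k / R + 1
      omega
    · intro c hc c' hc' heq
      rw [Finset.mem_coe, Finset.mem_filter] at hc hc'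
      have hcC := (hC' c).1 hc.1
      have hcC' := (hC' c').1 hc'.1
      have hb := (hbox c hcC.1).2
      have hb' := (hbox c' hcC'.1).2
      have h2 : (0 : ℤ) ≤ c.2 / R := Int.ediv_nonneg hb.1 hRpos.le
      have h2' : (0 : ℤ) ≤ c'.2 / R := Int.ediv_nonneg hb'.1 hRpos.le
      have heq' : c.2 / (R : ℤ) = c'.2 / R := by
        simp only at heq
        omega
      by_contra hne
      rcases hdich c hcC.1 c' hcC'.1 (Ne.symm hne) with h | h
      · have h3 := hmono2 c hc.1 c' hc'.1 h.1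
        have h4 : c'.2 + 1 * R ≤ c.2 := by linarith [hc.2]
        have h5 := Int.ediv_le_ediv hRpos h4
        rw [Int.add_mul_ediv_right _ _ (ne_of_gt hRpos)] at h5
        omega
      · have h3 := hmono2 c' hc'.1 c hc.1 h.1
        have h4 : c.2 + 1 * R ≤ c'.2 := by linarith [hc'.2]
        have h5 := Int.ediv_le_ediv hRpos h4
        rw [Int.add_mul_ediv_right _ _ (ne_of_gt hRpos)] at h5
        omega
  have hinj : ∀ c ∈ C', ∀ c' ∈ C', c.1 < c'.1 → (s c).1 - c.1 = (s c').1 - c'.1 →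
      c.2 - (s c).2 = c'.2 - (s c').2 → False := by
    intro c hc c' hc' hlt1 hx hy
    have hcC := (hC' c).1 hc
    have hcC' := (hC' c').1 hc'
    have h1 := hs c hcC
    have h2 := hs c' hcC'
    have h3 := h1.2.2 c' hcC'.1 hlt1
    have hxr : ((s c).1 : ℝ) - c.1 = (s c').1 - c'.1 := by exact_mod_cast hx
    have hyr : (c.2 : ℝ) - (s c).2 = c'.2 - (s c').2 := by exact_mod_cast hy
    by_cases he : s c = c'
    · obtain ⟨a, b, ha, hb, hA, hB⟩ := hmid c hcC.1 c' hcC'.1 (s c') h2.1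
        (by rw [← he]; exact h1.2.1) h2.2.1
      rw [he] at hxr hyr
      rw [← hyr, ← hxr] at hB
      linarith
    · have h4 : (s c).1 < c'.1 := by
        rcases hdich (s c) h1.1 c' hcC'.1 (Ne.symm he) with h | h
        · exact h.1
        · omega
      obtain ⟨a, b, ha, hb, hA, hB⟩ := hmid c hcC.1 (s c) h1.1 c' hcC'.1 h1.2.1 h4
      obtain ⟨a', b', ha', hb', hA', hB'⟩ := hmid (s c) h1.1 c' hcC'.1 (s c') h2.1 h4 h2.2.1
      rw [← hyr, ← hxr] at hB'
      have hX : (0 : ℝ) < (c'.1 : ℝ) - (s c).1 := by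
        have : ((s c).1 : ℝ) < c'.1 := by exact_mod_cast h4
        linarith
      have hdx : (0 : ℝ) < ((s c).1 : ℝ) - c.1 := by
        have : ((c).1 : ℝ) < (s c).1 := by exact_mod_cast h1.2.1
        linarith
      have hdy : (0 : ℝ) < (c.2 : ℝ) - (s c).2 := by
        have : ((s c).2 : ℝ) < c.2 := by exact_mod_cast hlt c hcC.1 (s c) h1.1 h1.2.1
        linarith
      have hY : (0 : ℝ) < ((s c).2 : ℝ) - c'.2 := by
        have : ((c').2 : ℝ) < (s c).2 := by exact_mod_cast hlt (s c) h1.1 c' hcC'.1 h4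
        linarith
      set dx := ((s c).1 : ℝ) - c.1 with hdxd
      set dy := (c.2 : ℝ) - (s c).2 with hdyd
      set X := (c'.1 : ℝ) - (s c).1 with hXd
      set Y := ((s c).2 : ℝ) - c'.2 with hYd
      have e1 : (b * dy) * (a * X) < (a * dx) * (b * Y) :=
        mul_lt_mul'' hA hB (by positivity) (by positivity)
      have e2 : (b' * Y) * (a' * dx) < (a' * X) * (b' * dy) :=
        mul_lt_mul'' hA' hB' (by positivity) (by positivity)
      have e3 : dy * X < dx * Y := by
        have : (a * b) * (dy * X) < (a * b) * (dx * Y) := by linarith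
        exact lt_of_mul_lt_mul_left this (by positivity)
      have e4 : Y * dx < X * dy := by
        have : (a' * b') * (Y * dx) < (a' * b') * (X * dy) := by linarith
        exact lt_of_mul_lt_mul_left this (by positivity)
      linarith
  have hb3 : C3.card ≤ R ^ 2 := by
    have : (Finset.range R ×ˢ Finset.range R).card = R ^ 2 := by
      rw [Finset.card_product, Finset.card_range, sq]
    rw [← this]
    refine Finset.card_le_card_of_injOn
      (fun c => (((s c).1 - c.1).toNat, (c.2 - (s c).2).toNat)) ?_ ?_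
    · intro c hc
      rw [Finset.mem_coe, Finset.mem_filter] at hc
      have hcC := (hC' c).1 hc.1
      have h1 := hs c hcC
      have h2 := hlt c hcC.1 (s c) h1.1 h1.2.1
      rw [Finset.mem_coe, Finset.mem_product, Finset.mem_range, Finset.mem_range]
      simp only
      omega
    · intro c hc c' hc' heq
      rw [Finset.mem_coe, Finset.mem_filter] at hc hc'
      have hcC := (hC' c).1 hc.1
      have h1 := hs c hcC
      have h2 := hlt c hcC.1 (s c) h1.1 h1.2.1
      have hcC' := (hC' c').1 hc'.1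
      have h1' := hs c' hcC'
      have h2' := hlt c' hcC'.1 (s c') h1'.1 h1'.2.1
      rw [Prod.mk.injEq] at heq
      have hx : (s c).1 - c.1 = (s c').1 - c'.1 := by omega
      have hy : c.2 - (s c).2 = c'.2 - (s c').2 := by omega
      by_contra hne
      rcases hdich c hcC.1 c' hcC'.1 (Ne.symm hne) with h | h
      · exact hinj c hc.1 c' hc'.1 h.1 hx hy
      · exact hinj c' hc'.1 c hc.1 h.1 hx.symm hy.symm
  omega

end H555LP
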