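import Pool.Agent.H555LP.Pigeon

namespace H555LP

open Set
open scoped Pointwise

theorem hExp_le {V : Type*} (G : SimpleGraph V) (S : Set V) (hS : S.Nonempty)
    (h2 : 2 * S.ncard ≤ Nat.card V) : hExp G ≤ (cut G S : ℝ) / (S.ncard : ℝ) := by
  refine csInf_le ⟨0, ?_⟩ ⟨S, hS, h2, rfl⟩
  rintro r ⟨S', -, -, rfl⟩
  positivity

/-- The polygons touching the right side. -/
def SR (n : ℕ) : Set (PolyIn (cube 2 n)) := {P | ∃ z ∈ P.1, z 0 = (n : ℝ)}

theorem SR_image (n : ℕ) : Subtype.val '' (SR n) = U n n := by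
  ext P
  constructor
  · rintro ⟨⟨P, hP⟩, h, rfl⟩
    refine ⟨?_, h⟩
    rw [box_cube]
    exact hP
  · intro h
    refine ⟨⟨P, ?_⟩, h.2, rfl⟩
    rw [← box_cube]
    exact h.1

theorem SR_card (n : ℕ) : (SR n).ncard = g n := by
  rw [g, ← SR_image, Set.ncard_image_of_injective _ Subtype.val_injective]

theorem cut_key {n : ℕ} {P Q : PolyIn (cube 2 n)} (hP : P ∈ SR n) (hQ : Q ∉ SR n)
    (hadj : (Lam 2 n).Adj P Q) : ∃ x : Fin 2 → ℝ, IsInsertion Q.1 x P.1 ∧ x 0 = n ∧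
      ∀ z ∈ P.1, z 0 = n → z = x := by
  obtain ⟨hne, ⟨x, hx⟩ | ⟨x, hx⟩⟩ := hadj
  · exfalso
    obtain ⟨z, hz, hz0⟩ := hP
    exact hQ ⟨z, ins_sub hx hz, hz0⟩
  · have hqlt : ∀ q ∈ Q.1, q 0 < n := by
      intro q hq
      rcases lt_or_eq_of_le (Q.2.1 hq 0).2 with h | h
      · exact h
      · exact absurd ⟨q, hq, h⟩ hQ
    have hxP : x ∈ P.1 := by
      rw [hx.1]
      exact subset_convexHull ℝ _ (Or.inr rfl)
    have hx0 : x 0 ≤ n := (P.2.1 hxP 0).2
    have key : ∀ z ∈ P.1, z 0 = n → z = x := by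
      intro z hz hz0
      rw [hx.1, Set.union_singleton, convexHull_insert (poly_nonempty Q.2), mem_convexJoin] at hz
      obtain ⟨a, ha, q, hq, hseg⟩ := hz
      rw [mem_singleton_iff] at ha
      subst ha
      rw [(poly_convex Q.2).convexHull_eq] at hq
      obtain ⟨s, t, hs, ht, hst, rfl⟩ := hseg
      have h1 := hqlt q hq
      simp only [Pi.add_apply, Pi.smul_apply, smul_eq_mul] at hz0
      have ht0 : t = 0 := by
        rcases ht.lt_or_eq with h | h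
        · exfalso
          have h2 : t * q 0 < t * n := mul_lt_mul_of_pos_left h1 h
          have h3 : s * a 0 ≤ s * n := mul_le_mul_of_nonneg_left hx0 hs
          have h4 : s * n + t * n = n := by rw [← add_mul, hst, one_mul]
          linarith
        · exact h.symm
      have hs1 : s = 1 := by linarith
      rw [ht0, hs1]
      simp
    obtain ⟨z, hz, hz0⟩ := hP
    have h5 := key z hz hz0
    exact ⟨x, hx, by rw [← h5]; exact hz0, key⟩

theorem cut_le (n : ℕ) : cut (Lam 2 n) (SR n) ≤ (T n n).ncard := by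
  refine Set.ncard_le_ncard_of_injOn (fun p => p.1.1) ?_ ?_ (T_finite n n)
  · rintro ⟨P, Q⟩ ⟨hP, hQ, hadj⟩
    obtain ⟨x, -, -, hx⟩ := cut_key hP hQ hadj
    refine ⟨?_, x 1, fun z hz hz0 => by rw [hx z hz hz0]⟩
    rw [← SR_image]
    exact ⟨P, hP, rfl⟩
  · rintro ⟨P, Q⟩ ⟨hP, hQ, hadj⟩ ⟨P', Q'⟩ ⟨hP', hQ', hadj'⟩ h
    simp only at h hP hQ hadj hP' hQ' hadj'
    have hPP : P = P' := Subtype.ext h
    subst hPP
    obtain ⟨x, hx1, hx0, hx⟩ := cut_key hP hQ hadj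
    obtain ⟨x', hx1', hx0', hx'⟩ := cut_key hP' hQ' hadj'
    have hxP : x' ∈ P.1 := by
      rw [hx1'.1]
      exact subset_convexHull ℝ _ (Or.inr rfl)
    have hxx : x' = x := hx x' hxP hx0'
    subst hxx
    have e1 := ins_det Q.2 hx1 (fun h => hadj.1 (Subtype.ext h.symm))
    have e2 := ins_det Q'.2 hx1' (fun h => hadj'.1 (Subtype.ext h.symm))
    have : Q = Q' := Subtype.ext (e1.trans e2.symm)
    rw [this]

theorem hExp_small (m J K : ℕ) (hm : 1 ≤ m) (hJ : 3 ≤ J) :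
    ∃ n, K ≤ n ∧ ∃ S : Set (PolyIn (cube 2 n)), S.Nonempty ∧
      2 * S.ncard ≤ Nat.card (PolyIn (cube 2 n)) ∧
      (cut (Lam 2 n) S : ℝ) / (S.ncard : ℝ) ≤ 1 / ((J : ℝ) + 1) + 1 / ((m : ℝ) + 1) := by
  obtain ⟨k, hk, hmk⟩ := pigeon m J (K + 1) hm (by omega) (by omega)
  refine ⟨k + J, by omega, ?_⟩
  set n := k + J with hn
  have hgn : 1 ≤ g n := g_pos (by omega)
  have h1 : g k ≤ (U n k).ncard := U_ge k J n rfl
  have h2 : (T n k).ncard * (J + 1) ≤ g n := T_many n k J n rfl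
  have h3 : (U k n).ncard * (J + 1) ≤ (PolyIn (cube 2 n)).ncard := U_many k J n rfl
  have h4 : g k ≤ (U k n).ncard := Set.ncard_le_ncard (U_mono _ (by omega)) (U_finite _ _)
  have h5 : (T n n).ncard ≤ (T n k).ncard + (g n - (U n k).ncard) := by
    have e1 : T n n ⊆ T n k ∪ (U n n \ U n k) := by
      intro P hP
      by_cases h : P ∈ U n k
      · exact Or.inl ⟨h, hP.2⟩
      · exact Or.inr ⟨hP.1, h⟩
    have e2 := Set.ncard_le_ncard e1 ((T_finite n k).union ((U_finite n n).subset sdiff_subset))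
    have e3 := Set.ncard_union_le (T n k) (U n n \ U n k)
    have e4 : (U n n \ U n k).ncard = (U n n).ncard - (U n k).ncard :=
      Set.ncard_sdiff (U_mono n (by omega)) (U_finite n k)
    rw [e4] at e3
    exact e2.trans e3
  have h6 : (U n k).ncard ≤ g n := Set.ncard_le_ncard (U_mono n (by omega)) (U_finite n n)
  have h7 := cut_le n
  have hSne : (SR n).Nonempty := by
    have : (SR n).ncard ≠ 0 := by
      rw [SR_card]
      omega
    exact Set.nonempty_of_ncard_ne_zero this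
  have hhalf : 2 * (SR n).ncard ≤ Nat.card (PolyIn (cube 2 n)) := by
    rw [SR_card, Nat.card_coe_set_eq]
    have e1 : g k * 4 ≤ (U k n).ncard * (J + 1) := Nat.mul_le_mul h4 (by omega)
    have e2 : m * g n ≤ m * (2 * g k) := by nlinarith
    have e3 : g n ≤ 2 * g k := Nat.le_of_mul_le_mul_left e2 (by omega)
    omega
  refine ⟨SR n, hSne, hhalf, ?_⟩
  rw [SR_card]
  have hgn' : (0 : ℝ) < g n := by exact_mod_cast hgn
  rw [div_le_iff₀ hgn']
  have c1 : (cut (Lam 2 n) (SR n) : ℝ) ≤ (T n k).ncard + (g n - g k) := by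
    have : cut (Lam 2 n) (SR n) + (U n k).ncard ≤ (T n k).ncard + g n := by omega
    have e1 : (cut (Lam 2 n) (SR n) : ℝ) + (U n k).ncard ≤ (T n k).ncard + g n := by
      exact_mod_cast this
    have e2 : (g k : ℝ) ≤ (U n k).ncard := by exact_mod_cast h1
    linarith
  have c2 : ((T n k).ncard : ℝ) ≤ 1 / ((J : ℝ) + 1) * g n := by
    rw [one_div, inv_mul_eq_div, le_div_iff₀ (by positivity)]
    exact_mod_cast h2
  have c3 : ((g n : ℝ) - g k) ≤ 1 / ((m : ℝ) + 1) * g n := by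
    rw [one_div, inv_mul_eq_div, le_div_iff₀ (by positivity)]
    have : (m : ℝ) * g n ≤ (m + 1) * g k := by exact_mod_cast hmk
    linarith
  linarith

theorem h_eps (ε : ℝ) (hε : 0 < ε) (K : ℕ) :
    ∃ n, K ≤ n ∧ hExp (Lam 2 n) < ε ∧ ∃ S : Set (PolyIn (cube 2 n)), S.Nonempty ∧
      2 * S.ncard ≤ Nat.card (PolyIn (cube 2 n)) ∧
      (cut (Lam 2 n) S : ℝ) / (S.ncard : ℝ) < ε := by
  obtain ⟨M, hM⟩ := exists_nat_gt (2 / ε)
  have hM0 : (0 : ℝ) < M := lt_trans (by positivity) hM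
  obtain ⟨n, hn, S, h1, h2, h3⟩ := hExp_small (M + 3) (M + 3) K (by omega) (by omega)
  have h4 : 1 / (((M + 3 : ℕ) : ℝ) + 1) + 1 / (((M + 3 : ℕ) : ℝ) + 1) < ε := by
    rw [← add_div, div_lt_iff₀ (by positivity)]
    rw [div_lt_iff₀ hε] at hM
    push_cast
    nlinarith
  exact ⟨n, hn, ((hExp_le _ S h1 h2).trans h3).trans_lt h4, S, h1, h2, h3.trans_lt h4⟩

end H555LP
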