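import Mathlib

/-!
# Elementary-move graphs of lattice polytopes: definitions
-/

namespace H555LP

/-- Points of `ℝ^d` with integer coordinates. -/
def IsLat {d : ℕ} (x : Fin d → ℝ) : Prop := ∀ i, ∃ n : ℤ, x i = (n : ℝ)

/-- The full-dimensional lattice polytopes contained in a set `B`. -/
def PolyIn {d : ℕ} (B : Set (Fin d → ℝ)) : Set (Set (Fin d → ℝ)) :=
  {P | P ⊆ B ∧ (interior P).Nonempty ∧
    ∃ W : Set (Fin d → ℝ), W.Finite ∧ (∀ x ∈ W, IsLat x) ∧ P = convexHull ℝ W}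

/-- The cube `[0,k]^d`. -/
def cube (d k : ℕ) : Set (Fin d → ℝ) := {x | ∀ i, 0 ≤ x i ∧ x i ≤ (k : ℝ)}

/-- `Q` is obtained from `P` by the insertion of the point `x`: `Q = conv (P ∪ {x})` and the
vertex set of `Q` is exactly the vertex set of `P` together with `x`. -/
def IsInsertion {d : ℕ} (P : Set (Fin d → ℝ)) (x : Fin d → ℝ) (Q : Set (Fin d → ℝ)) : Prop :=
  Q = convexHull ℝ (P ∪ {x}) ∧ Q.extremePoints ℝ = P.extremePoints ℝ ∪ {x}

/-- The graph `Λ(d,k)`. -/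
def Lam (d k : ℕ) : SimpleGraph (PolyIn (cube d k)) where
  Adj P Q := P ≠ Q ∧ ((∃ x, IsInsertion P.1 x Q.1) ∨ (∃ x, IsInsertion Q.1 x P.1))
  symm := ⟨fun _ _ h => ⟨h.1.symm, h.2.symm⟩⟩
  loopless := ⟨fun _ h => h.1 rfl⟩

/-- The number of edges between `S` and its complement. -/
noncomputable def cut {V : Type*} (G : SimpleGraph V) (S : Set V) : ℕ :=
  {p : V × V | p.1 ∈ S ∧ p.2 ∉ S ∧ G.Adj p.1 p.2}.ncard

/-- The sum of the degrees of the vertices in `S`. -/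
noncomputable def vol {V : Type*} (G : SimpleGraph V) (S : Set V) : ℕ :=
  {p : V × V | p.1 ∈ S ∧ G.Adj p.1 p.2}.ncard

/-- The edge expansion `h(G)` of a finite graph. -/
noncomputable def hExp {V : Type*} (G : SimpleGraph V) : ℝ :=
  sInf {r : ℝ | ∃ S : Set V, S.Nonempty ∧ 2 * S.ncard ≤ Nat.card V ∧
    r = (cut G S : ℝ) / (S.ncard : ℝ)}

/-- The conductance `Φ(G)` of a finite graph. -/
noncomputable def PhiExp {V : Type*} (G : SimpleGraph V) : ℝ :=
  sInf {r : ℝ | ∃ S : Set V, S.Nonempty ∧ 0 < vol G S ∧ 2 * vol G S ≤ vol G Set.univ ∧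
    r = (cut G S : ℝ) / (vol G S : ℝ)}

end H555LP
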