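import Pool.Agent.H555LP.Vert

namespace H555LP

open Set

variable {d : ℕ}

theorem exists_base (Z : Set (Fin d → ℝ)) (hZ : affineSpan ℝ Z = ⊤) :
    ∃ A : Set (Fin d → ℝ), A ⊆ Z ∧ A.Finite ∧ A.ncard ≤ d + 1 ∧ affineSpan ℝ A = ⊤ := by
  obtain ⟨A, hA, hspan, hind⟩ := exists_affineIndependent ℝ (Fin d → ℝ) Z
  have hfin : A.Finite := finite_set_of_fin_dim_affineIndependent ℝ hind
  refine ⟨A, hA, hfin, ?_, by rw [hspan, hZ]⟩
  classical
  have := hfin.fintype
  have h1 := hind.card_le_finrank_succ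
  have h2 : Module.finrank ℝ (vectorSpan ℝ (Set.range ((↑) : A → Fin d → ℝ))) ≤ d := by
    have := Submodule.finrank_le (vectorSpan ℝ (Set.range ((↑) : A → Fin d → ℝ)))
    rwa [Module.finrank_fin_fun] at this
  have h3 : A.ncard = Fintype.card A := by
    rw [← Nat.card_coe_set_eq, Nat.card_eq_fintype_card]
  rw [h3]
  exact h1.trans (Nat.succ_le_succ h2)

theorem cube_conv_sub {k : ℕ} {W : Set (Fin d → ℝ)} (hW : W ⊆ cube d k) :
    convexHull ℝ W ⊆ cube d k := convexHull_min hW (cube_convex d k)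

/-- If `Z` is in convex position then the vertex set of `conv Y`, `Y ⊆ Z`, is `Y`. -/
theorem ext_conv_of_pos {Y : Set (Fin d → ℝ)} (hYf : Y.Finite)
    (hpos : ∀ z ∈ Y, z ∉ convexHull ℝ (Y \ {z})) :
    (convexHull ℝ Y).extremePoints ℝ = Y := by
  apply Subset.antisymm extremePoints_convexHull_subset
  intro z hz
  by_contra h
  apply hpos z hz
  have h1 : (convexHull ℝ Y).extremePoints ℝ ⊆ Y \ {z} := by
    intro w hw
    refine ⟨extremePoints_convexHull_subset hw, ?_⟩
    rintro rfl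
    exact h hw
  have h2 : convexHull ℝ Y ⊆ convexHull ℝ (Y \ {z}) := by
    rw [← conv_ext_of_finite hYf]
    exact convexHull_mono h1
  exact h2 (subset_convexHull ℝ _ hz)

theorem ext_pos {B P : Set (Fin d → ℝ)} (hP : P ∈ PolyIn B) {Y : Set (Fin d → ℝ)}
    (hY : Y ⊆ P.extremePoints ℝ) : (convexHull ℝ Y).extremePoints ℝ = Y := by
  refine ext_conv_of_pos ((poly_ext_finite hP).subset hY) (fun z hz h => ?_)
  exact ext_notMem_conv hP (hY hz) (convexHull_mono (sdiff_subset_sdiff_left hY) h)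

theorem span_interior {W : Set (Fin d → ℝ)} (h : affineSpan ℝ W = ⊤) :
    (interior (convexHull ℝ W)).Nonempty :=
  interior_convexHull_nonempty_iff_affineSpan_eq_top.2 h

theorem poly_span {B P : Set (Fin d → ℝ)} (hP : P ∈ PolyIn B) :
    affineSpan ℝ (P.extremePoints ℝ) = ⊤ := by
  rw [← interior_convexHull_nonempty_iff_affineSpan_eq_top, poly_conv_ext hP]
  exact hP.2.1

/-- Deleting a vertex outside of a spanning set of vertices gives a neighbour. -/
theorem del_adj {k : ℕ} (P : PolyIn (cube d k)) {A : Set (Fin d → ℝ)}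
    (hA : A ⊆ P.1.extremePoints ℝ) (hspan : affineSpan ℝ A = ⊤) {v : Fin d → ℝ}
    (hv : v ∈ P.1.extremePoints ℝ) (hvA : v ∉ A) :
    ∃ Q : PolyIn (cube d k), (Lam d k).Adj P Q ∧
      Q.1.extremePoints ℝ = P.1.extremePoints ℝ \ {v} := by
  have hsub : P.1.extremePoints ℝ \ {v} ⊆ P.1.extremePoints ℝ := sdiff_subset
  have hAs : A ⊆ P.1.extremePoints ℝ \ {v} := fun a ha => ⟨hA ha, by
    rintro rfl
    exact hvA ha⟩
  have hext := ext_pos P.2 hsub
  have hQ : convexHull ℝ (P.1.extremePoints ℝ \ {v}) ∈ PolyIn (cube d k) := by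
    refine ⟨cube_conv_sub (hsub.trans (extremePoints_subset.trans P.2.1)), ?_,
      _, (poly_ext_finite P.2).subset hsub, fun x hx => poly_ext_lat P.2 x hx.1, rfl⟩
    apply span_interior
    rw [eq_top_iff, ← hspan]
    exact affineSpan_mono ℝ hAs
  refine ⟨⟨_, hQ⟩, ⟨?_, Or.inr ⟨v, ?_, ?_⟩⟩, hext⟩
  · intro h
    have h1 : P.1 = convexHull ℝ (P.1.extremePoints ℝ \ {v}) := congrArg Subtype.val h
    have h2 := ext_notMem_conv P.2 hv
    apply h2
    rw [← h1]
    exact extremePoints_subset hv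
  · simp only
    rw [convexHull_convexHull_union_left]
    have : P.1.extremePoints ℝ \ {v} ∪ {v} = P.1.extremePoints ℝ := by
      rw [sdiff_union_self]
      exact union_eq_left.2 (by simpa using hv)
    rw [this]
    exact (poly_conv_ext P.2).symm
  · simp only
    rw [hext]
    ext w
    simp only [mem_union, mem_sdiff, mem_singleton_iff]
    constructor
    · intro hw
      by_cases h : w = v
      · exact Or.inr h
      · exact Or.inl ⟨hw, h⟩
    · rintro (h | rfl)
      · exact h.1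
      · exact hv

/-- A polytope with many vertices has many neighbours. -/
theorem many_nbrs {k : ℕ} (P : PolyIn (cube d k)) (M : ℕ)
    (hM : M + d + 1 ≤ (P.1.extremePoints ℝ).ncard) :
    ∃ f : Fin M → PolyIn (cube d k), Function.Injective f ∧ ∀ i, (Lam d k).Adj P (f i) := by
  obtain ⟨A, hA, hAf, hAc, hspan⟩ := exists_base _ (poly_span P.2)
  have h1 : M ≤ (P.1.extremePoints ℝ \ A).ncard := by
    have := Set.le_ncard_sdiff A (P.1.extremePoints ℝ) hAf
    omega
  have hfin : (P.1.extremePoints ℝ \ A).Finite := (poly_ext_finite P.2).subset sdiff_subset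
  obtain ⟨t, ht, htc⟩ := Set.exists_subset_card_eq h1
  have htf : t.Finite := hfin.subset ht
  have := htf.fintype
  have hcard : Fintype.card t = M := by
    rw [← Nat.card_eq_fintype_card, Nat.card_coe_set_eq, htc]
  let e : Fin M ≃ t := (Fintype.equivFinOfCardEq hcard).symm
  have hex : ∀ i : Fin M, ∃ Q : PolyIn (cube d k), (Lam d k).Adj P Q ∧
      Q.1.extremePoints ℝ = P.1.extremePoints ℝ \ {(e i : Fin d → ℝ)} := fun i =>
    del_adj P hA hspan (ht (e i).2).1 (ht (e i).2).2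
  choose f hf1 hf2 using hex
  refine ⟨f, ?_, hf1⟩
  intro i j hij
  have h2 : P.1.extremePoints ℝ \ {(e i : Fin d → ℝ)} = P.1.extremePoints ℝ \ {(e j : Fin d → ℝ)} := by
    rw [← hf2 i, ← hf2 j, hij]
  have h3 : (e i : Fin d → ℝ) = e j := by
    by_contra hne
    have h4 : (e j : Fin d → ℝ) ∈ P.1.extremePoints ℝ \ {(e i : Fin d → ℝ)} :=
      ⟨(ht (e j).2).1, fun h => hne h.symm⟩
    rw [h2] at h4
    exact h4.2 rfl
  exact e.injective (Subtype.ext h3)

/-- The volume of a set with many polytopes is large. -/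
theorem vol_ge {k : ℕ} (S : Set (PolyIn (cube d k))) (M : ℕ)
    (hS : 2 * ((k + 1) ^ d + 1) ^ (M + d + 1) ≤ S.ncard) :
    S.ncard * M ≤ 2 * vol (Lam d k) S := by
  have : Finite (PolyIn (cube d k)) := (poly_finite d k).to_subtype
  let Sb : Set (PolyIn (cube d k)) := {P ∈ S | M + d + 1 ≤ (P.1.extremePoints ℝ).ncard}
  have h1 : S.ncard ≤ 2 * Sb.ncard := by
    have e1 : S ⊆ Sb ∪ {P | (P.1.extremePoints ℝ).ncard ≤ M + d + 1} := by
      intro P hP
      by_cases h : M + d + 1 ≤ (P.1.extremePoints ℝ).ncard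
      · exact Or.inl ⟨hP, h⟩
      · exact Or.inr (not_le.1 h).le
    have e2 := Set.ncard_le_ncard e1 (Set.toFinite _)
    have e3 := Set.ncard_union_le Sb {P : PolyIn (cube d k) | (P.1.extremePoints ℝ).ncard ≤ M + d + 1}
    have e4 : {P : PolyIn (cube d k) | (P.1.extremePoints ℝ).ncard ≤ M + d + 1}.ncard ≤
        ((k + 1) ^ d + 1) ^ (M + d + 1) := by
      rw [← Set.ncard_image_of_injective _ Subtype.val_injective]
      refine (Set.ncard_le_ncard ?_ ((poly_finite d k).subset (Set.sep_subset _ _))).trans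
        (count_few d k (M + d + 1))
      rintro P ⟨Q, hQ, rfl⟩
      exact ⟨Q.2, hQ⟩
    omega
  have h2 : Sb.ncard * M ≤ vol (Lam d k) S := by
    have hex : ∀ P : PolyIn (cube d k), ∃ f : Fin M → PolyIn (cube d k), P ∈ Sb →
        (Function.Injective f ∧ ∀ i, (Lam d k).Adj P (f i)) := by
      intro P
      by_cases h : P ∈ Sb
      · obtain ⟨f, hf⟩ := many_nbrs P M h.2
        exact ⟨f, fun _ => hf⟩
      · exact ⟨fun _ => P, fun h' => absurd h' h⟩
    choose f hf using hex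
    have e1 : (Sb ×ˢ (Set.univ : Set (Fin M))).ncard = Sb.ncard * M := by
      rw [Set.ncard_prod, Set.ncard_univ, Nat.card_eq_fintype_card, Fintype.card_fin]
    rw [← e1]
    refine Set.ncard_le_ncard_of_injOn (fun p => (p.1, f p.1 p.2)) ?_ ?_ (Set.toFinite _)
    · rintro ⟨P, i⟩ ⟨hP, -⟩
      exact ⟨hP.1, (hf P hP).2 i⟩
    · rintro ⟨P, i⟩ ⟨hP, -⟩ ⟨Q, j⟩ ⟨hQ, -⟩ h
      simp only [Prod.mk.injEq] at h
      obtain ⟨rfl, h⟩ := h
      rw [(hf P hP).1 h]
  nlinarith

end H555LP
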