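import Pool.Agent.H555LP.Vert

namespace H555LP

open Set
open scoped Pointwise

/-- Minkowski sum of a lattice polytope with a lattice polytope. -/
theorem poly_add {d : ℕ} {B B' P : Set (Fin d → ℝ)} (hP : P ∈ PolyIn B)
    {F : Set (Fin d → ℝ)} (hF : F.Finite) (hF0 : F.Nonempty) (hl : ∀ x ∈ F, IsLat x)
    (hB : P + convexHull ℝ F ⊆ B') : P + convexHull ℝ F ∈ PolyIn B' := by
  obtain ⟨h1, h2, W, hW, hWl, rfl⟩ := hP
  refine ⟨hB, ?_, W + F, hW.add hF, ?_, (convexHull_add W F).symm⟩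
  · have h3 : interior (convexHull ℝ W) + convexHull ℝ F ⊆
        interior (convexHull ℝ W + convexHull ℝ F) := subset_interior_add_left
    exact (h2.add (hF0.mono (subset_convexHull ℝ F))).mono h3
  · intro x hx
    obtain ⟨a, ha, b, hb, rfl⟩ := hx
    intro i
    obtain ⟨n, hn⟩ := hWl a ha i
    obtain ⟨m, hm⟩ := hl b hb i
    exact ⟨n + m, by simp [hn, hm]⟩

/-- Rectangular boxes. -/
def box (a b : ℕ) : Set (Fin 2 → ℝ) := {x | 0 ≤ x 0 ∧ x 0 ≤ a ∧ 0 ≤ x 1 ∧ x 1 ≤ b}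

/-- Polygons in the box `[0,a] × [0,b]` that touch the right side. -/
def U (a b : ℕ) : Set (Set (Fin 2 → ℝ)) := {P | P ∈ PolyIn (box a b) ∧ ∃ z ∈ P, z 0 = a}

/-- Those that touch it in a single point. -/
def T (a b : ℕ) : Set (Set (Fin 2 → ℝ)) :=
  {P | P ∈ U a b ∧ ∃ y : ℝ, ∀ z ∈ P, z 0 = a → z 1 = y}

theorem box_cube (k : ℕ) : box k k = cube 2 k := by
  ext x
  simp only [box, cube, mem_ofPred_eq, Fin.forall_fin_two]
  tauto

theorem box_mono {a b a' b' : ℕ} (h1 : a ≤ a') (h2 : b ≤ b') : box a b ⊆ box a' b' := by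
  intro x hx
  have h3 : (a : ℝ) ≤ a' := by exact_mod_cast h1
  have h4 : (b : ℝ) ≤ b' := by exact_mod_cast h2
  exact ⟨hx.1, hx.2.1.trans h3, hx.2.2.1, hx.2.2.2.trans h4⟩

theorem box_finite (a b : ℕ) : (PolyIn (box a b)).Finite := by
  refine poly_finite' (k := max a b) ?_
  rw [← box_cube]
  exact box_mono (le_max_left _ _) (le_max_right _ _)

theorem U_finite (a b : ℕ) : (U a b).Finite := (box_finite a b).subset (fun _ h => h.1)

theorem T_finite (a b : ℕ) : (T a b).Finite := (U_finite a b).subset (fun _ h => h.1)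

theorem U_mono (a : ℕ) {b b' : ℕ} (h : b ≤ b') : U a b ⊆ U a b' :=
  fun _ hP => ⟨poly_mono (box_mono le_rfl h) hP.1, hP.2⟩

/-- Horizontal translation. -/
theorem U_translate {a b t : ℕ} {P : Set (Fin 2 → ℝ)} (hP : P ∈ U a b) :
    P + convexHull ℝ {![(t : ℝ), 0]} ∈ U (a + t) b := by
  refine ⟨poly_add hP.1 (Set.finite_singleton _) (Set.singleton_nonempty _) ?_ ?_, ?_⟩
  · intro x hx
    rw [mem_singleton_iff] at hx
    rw [hx]
    intro i
    fin_cases i
    · exact ⟨t, by simp⟩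
    · exact ⟨0, by simp⟩
  · rw [convexHull_singleton]
    rintro x ⟨p, hp, q, hq, rfl⟩
    rw [mem_singleton_iff] at hq
    rw [hq]
    obtain ⟨h1, h2, h3, h4⟩ := hP.1.1 hp
    have ht : (0 : ℝ) ≤ t := by positivity
    refine ⟨?_, ?_, ?_, ?_⟩ <;> simp <;> linarith
  · obtain ⟨z, hz, hz0⟩ := hP.2
    refine ⟨z + ![(t : ℝ), 0], ?_, ?_⟩
    · rw [convexHull_singleton]
      exact Set.add_mem_add hz rfl
    · simp [hz0]

theorem add_singleton_cancel {d : ℕ} {P Q : Set (Fin d → ℝ)} {v : Fin d → ℝ}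
    (h : P + {v} = Q + {v}) : P = Q := by
  rw [Set.add_singleton, Set.add_singleton] at h
  exact (Set.image_injective.2 (add_left_injective v)) h

theorem U_card_mono (a b t : ℕ) : (U a b).ncard ≤ (U (a + t) b).ncard := by
  refine Set.ncard_le_ncard_of_injOn (fun P => P + convexHull ℝ {![(t : ℝ), 0]})
    (fun P hP => U_translate hP) ?_ (U_finite _ _)
  intro P hP Q hQ h
  simp only [convexHull_singleton] at h
  exact add_singleton_cancel h

/-- `(J+1)` disjoint translates. -/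
theorem U_many (k J n : ℕ) (hn : k + J = n) : (U k n).ncard * (J + 1) ≤ (PolyIn (cube 2 n)).ncard := by
  have h1 : ((U k n) ×ˢ (Set.Iic J : Set ℕ)).ncard = (U k n).ncard * (J + 1) := by
    rw [Set.ncard_prod]
    congr 1
    rw [Set.ncard_eq_toFinset_card']
    simp
  rw [← h1]
  refine Set.ncard_le_ncard_of_injOn (fun p => p.1 + convexHull ℝ {![(p.2 : ℝ), 0]}) ?_ ?_
    (poly_finite _ _)
  · rintro ⟨P, i⟩ ⟨hP, hi⟩
    have hi' : i ≤ J := hi
    have := (U_translate (t := i) hP).1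
    rw [← box_cube]
    exact poly_mono (box_mono (by omega) le_rfl) this
  · rintro ⟨P, i⟩ ⟨hP, hi⟩ ⟨Q, j⟩ ⟨hQ, hj⟩ h
    simp only at h hP hQ
    have hP1 := U_translate (t := i) hP
    have hQ1 := U_translate (t := j) hQ
    have h2 : i = j := by
      apply le_antisymm
      · obtain ⟨z, hz, hz0⟩ := hP1.2
        rw [h] at hz
        have := (hQ1.1.1 hz).2.1
        rw [hz0] at this
        have h3 : k + i ≤ k + j := by exact_mod_cast this
        omega
      · obtain ⟨z, hz, hz0⟩ := hQ1.2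
        rw [← h] at hz
        have := (hP1.1.1 hz).2.1
        rw [hz0] at this
        have h3 : k + j ≤ k + i := by exact_mod_cast this
        omega
    subst h2
    simp only [convexHull_singleton] at h
    rw [add_singleton_cancel h]

theorem mem_seg (j : ℕ) (x : Fin 2 → ℝ) :
    x ∈ convexHull ℝ ({0, ![0, (j : ℝ)]} : Set (Fin 2 → ℝ)) ↔ x 0 = 0 ∧ 0 ≤ x 1 ∧ x 1 ≤ j := by
  rw [convexHull_pair, segment_eq_image']
  constructor
  · rintro ⟨θ, ⟨h0, h1⟩, rfl⟩
    have hj : (0 : ℝ) ≤ j := by positivity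
    refine ⟨by simp, by simp; positivity, ?_⟩
    simp
    nlinarith
  · rintro ⟨h0, h1, h2⟩
    rcases Nat.eq_zero_or_pos j with rfl | hj
    · refine ⟨0, by simp, ?_⟩
      have h3 : x 1 = 0 := le_antisymm (by simpa using h2) h1
      funext i
      fin_cases i
      · simp [h0]
      · simp [h3]
    · have hj' : (0 : ℝ) < j := by exact_mod_cast hj
      refine ⟨x 1 / j, ⟨by positivity, by rw [div_le_one hj']; exact h2⟩, ?_⟩
      funext i
      fin_cases i
      · simp [h0]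
      · simp
        field_simp

theorem mem_add_seg {P : Set (Fin 2 → ℝ)} (j : ℕ) (x : Fin 2 → ℝ) :
    x ∈ P + convexHull ℝ ({0, ![0, (j : ℝ)]} : Set (Fin 2 → ℝ)) ↔
      ∃ p ∈ P, x 0 = p 0 ∧ p 1 ≤ x 1 ∧ x 1 ≤ p 1 + j := by
  rw [Set.mem_add]
  constructor
  · rintro ⟨p, hp, q, hq, rfl⟩
    rw [mem_seg] at hq
    refine ⟨p, hp, ?_, ?_, ?_⟩
    · simp [hq.1]
    · simp [hq.2.1]
    · simp [hq.2.2]
  · rintro ⟨p, hp, h0, h1, h2⟩
    refine ⟨p, hp, x - p, ?_, by simp⟩
    rw [mem_seg]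
    refine ⟨?_, ?_, ?_⟩
    · simp [h0]
    · simp [h1]
    · simp only [Pi.sub_apply]
      linarith

theorem seg_cancel {B P Q : Set (Fin 2 → ℝ)} (hQ : Q ∈ PolyIn B) (j : ℕ)
    (h : P + convexHull ℝ ({0, ![0, (j : ℝ)]} : Set (Fin 2 → ℝ)) =
      Q + convexHull ℝ ({0, ![0, (j : ℝ)]} : Set (Fin 2 → ℝ))) : P ⊆ Q := by
  intro p hp
  have hj : (0 : ℝ) ≤ j := by positivity
  have h1 : p ∈ Q + convexHull ℝ ({0, ![0, (j : ℝ)]} : Set (Fin 2 → ℝ)) := by
    rw [← h, mem_add_seg]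
    exact ⟨p, hp, rfl, le_rfl, by linarith⟩
  have h2 : p + ![0, (j : ℝ)] ∈ Q + convexHull ℝ ({0, ![0, (j : ℝ)]} : Set (Fin 2 → ℝ)) := by
    rw [← h, mem_add_seg]
    exact ⟨p, hp, by simp, by simp, by simp⟩
  rw [mem_add_seg] at h1 h2
  obtain ⟨q, hq, hq0, hq1, -⟩ := h1
  obtain ⟨r, hr, hr0, -, hr1⟩ := h2
  simp only [Pi.add_apply, Matrix.cons_val_zero, Matrix.cons_val_one, add_zero] at hr0 hr1
  have hr1' : p 1 ≤ r 1 := by
    simp at hr1
    linarith
  rcases eq_or_lt_of_le (hq1.trans hr1') with he | hlt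
  · have : p = q := by
      funext i
      fin_cases i
      · exact hq0
      · show p 1 = q 1
        linarith
    rw [this]
    exact hq
  · have hc := poly_convex hQ
    have hpos : 0 < r 1 - q 1 := by linarith
    have := hc hq hr (a := (r 1 - p 1) / (r 1 - q 1)) (b := (p 1 - q 1) / (r 1 - q 1))
      (div_nonneg (by linarith) hpos.le) (div_nonneg (by linarith) hpos.le)
      (by field_simp; ring)
    convert this using 1
    funext i
    fin_cases i
    · simp only [Fin.zero_eta, Pi.add_apply, Pi.smul_apply, smul_eq_mul]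
      rw [← hq0, ← hr0]
      field_simp
      ring
    · simp only [Fin.mk_one, Pi.add_apply, Pi.smul_apply, smul_eq_mul]
      field_simp
      ring

/-- Minkowski sums with vertical segments. -/
theorem T_many (a k J n : ℕ) (hn : k + J = n) : (T a k).ncard * (J + 1) ≤ (U a n).ncard := by
  have h1 : ((T a k) ×ˢ (Set.Iic J : Set ℕ)).ncard = (T a k).ncard * (J + 1) := by
    rw [Set.ncard_prod]
    congr 1
    rw [Set.ncard_eq_toFinset_card']
    simp
  rw [← h1]
  refine Set.ncard_le_ncard_of_injOn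
    (fun p => p.1 + convexHull ℝ ({0, ![0, (p.2 : ℝ)]} : Set (Fin 2 → ℝ))) ?_ ?_ (U_finite _ _)
  · rintro ⟨P, i⟩ ⟨hP, hi⟩
    have hi' : i ≤ J := hi
    have hi2 : (i : ℝ) ≤ J := by exact_mod_cast hi'
    have hP1 : P ∈ U a k := hP.1
    have hi0 : (0 : ℝ) ≤ i := by positivity
    refine ⟨poly_add hP1.1 (Set.toFinite _) ⟨0, by simp⟩ ?_ ?_, ?_⟩
    · intro x hx
      rcases hx with rfl | hx
      · intro i
        exact ⟨0, by simp⟩
      · rw [mem_singleton_iff] at hx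
        rw [hx]
        intro l
        fin_cases l
        · exact ⟨0, by simp⟩
        · exact ⟨i, by simp⟩
    · intro x hx
      simp only at hx
      rw [mem_add_seg] at hx
      obtain ⟨p, hp, h0, h1, h2⟩ := hx
      obtain ⟨b1, b2, b3, b4⟩ := hP1.1.1 hp
      have hn' : (n : ℝ) = k + J := by
        rw [← hn]
        push_cast
        ring
      refine ⟨by linarith, by linarith, by linarith, by linarith⟩
    · obtain ⟨z, hz, hz0⟩ := hP1.2
      refine ⟨z, ?_, hz0⟩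
      simp only
      rw [mem_add_seg]
      exact ⟨z, hz, rfl, le_rfl, by linarith⟩
  · rintro ⟨P, i⟩ ⟨hP, hi⟩ ⟨Q, j⟩ ⟨hQ, hj⟩ h
    simp only at h hP hQ
    obtain ⟨hPU, y, hy⟩ := hP
    obtain ⟨hQU, y', hy'⟩ := hQ
    obtain ⟨z, hz, hz0⟩ := hPU.2
    obtain ⟨z', hz', hz0'⟩ := hQU.2
    have hzy := hy z hz hz0
    have hzy' := hy' z' hz' hz0'
    have hi0 : (0 : ℝ) ≤ i := by positivity
    have hj0 : (0 : ℝ) ≤ j := by positivity
    -- the points of the sums on the right side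
    have a1 : z ∈ Q + convexHull ℝ ({0, ![0, (j : ℝ)]} : Set (Fin 2 → ℝ)) := by
      rw [← h, mem_add_seg]
      exact ⟨z, hz, rfl, le_rfl, by linarith⟩
    have a2 : z + ![0, (i : ℝ)] ∈ Q + convexHull ℝ ({0, ![0, (j : ℝ)]} : Set (Fin 2 → ℝ)) := by
      rw [← h, mem_add_seg]
      exact ⟨z, hz, by simp, by simp, by simp⟩
    have a3 : z' ∈ P + convexHull ℝ ({0, ![0, (i : ℝ)]} : Set (Fin 2 → ℝ)) := by
      rw [h, mem_add_seg]
      exact ⟨z', hz', rfl, le_rfl, by linarith⟩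
    have a4 : z' + ![0, (j : ℝ)] ∈ P + convexHull ℝ ({0, ![0, (i : ℝ)]} : Set (Fin 2 → ℝ)) := by
      rw [h, mem_add_seg]
      exact ⟨z', hz', by simp, by simp, by simp⟩
    rw [mem_add_seg] at a1 a2 a3 a4
    obtain ⟨q1, hq1, b1, c1, d1⟩ := a1
    obtain ⟨q2, hq2, b2, c2, d2⟩ := a2
    obtain ⟨q3, hq3, b3, c3, d3⟩ := a3
    obtain ⟨q4, hq4, b4, c4, d4⟩ := a4
    have e1 := hy' q1 hq1 (by rw [← b1]; exact hz0)
    have e2 := hy' q2 hq2 (by rw [← b2]; simpa using hz0)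
    have e3 := hy q3 hq3 (by rw [← b3]; exact hz0')
    have e4 := hy q4 hq4 (by rw [← b4]; simpa using hz0')
    simp only [Pi.add_apply, Matrix.cons_val_one] at d2 d4
    simp at d2 d4
    have hij : (i : ℝ) = j := by
      apply le_antisymm <;> linarith
    have hij' : i = j := by exact_mod_cast hij
    subst hij'
    have hPQ : P = Q := Subset.antisymm (seg_cancel hQU.1 i h) (seg_cancel hPU.1 i h.symm)
    rw [hPQ]

end H555LP
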