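import Pool.Agent.H555LP.PhiB

namespace H555LP

open Set Filter Topology

variable {d : ℕ}

theorem span_top (W : Set (Fin d → ℝ)) (hne : W.Nonempty)
    (h : ∀ f : (Fin d → ℝ) →ₗ[ℝ] ℝ, (∀ x ∈ W, ∀ y ∈ W, f x = f y) → f = 0) :
    affineSpan ℝ W = ⊤ := by
  rw [← AffineSubspace.direction_eq_top_iff_of_nonempty
    ((affineSpan_nonempty ℝ).2 hne), direction_affineSpan]
  by_contra hne'
  obtain ⟨f, hf0, hf⟩ := Submodule.exists_le_ker_of_lt_top _ (lt_top_iff_ne_top.2 hne')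
  apply hf0
  apply h
  intro x hx y hy
  have h1 : x -ᵥ y ∈ vectorSpan ℝ W := vsub_mem_vectorSpan ℝ hx hy
  have h2 := hf h1
  rw [LinearMap.mem_ker, vsub_eq_sub, map_sub, sub_eq_zero] at h2
  exact h2

/-- The moment curve. -/
def mom (d : ℕ) (j : ℕ) : Fin d → ℝ := fun i => (j : ℝ) ^ ((i : ℕ) + 1)

theorem mom_zero : mom d 0 = 0 := by
  funext i
  simp [mom]

theorem mom_inj (hd : 1 ≤ d) : Function.Injective (mom d) := by
  intro a b h
  have := congrFun h ⟨0, hd⟩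
  simpa [mom] using this

theorem mom_span (hd : 1 ≤ d) (r : ℕ) (hr : d + 1 ≤ r) :
    affineSpan ℝ ((mom d '' Set.Iic r) \ {0}) = ⊤ := by
  have hmem : ∀ j : ℕ, 1 ≤ j → j ≤ r → mom d j ∈ (mom d '' Set.Iic r) \ {0} := by
    intro j h1 h2
    refine ⟨⟨j, h2, rfl⟩, ?_⟩
    rw [mem_singleton_iff, ← mom_zero]
    intro h
    have := mom_inj hd h
    omega
  apply span_top
  · exact ⟨_, hmem 1 le_rfl (by omega)⟩
  · intro f hf
    let p : Polynomial ℝ := (∑ i : Fin d, Polynomial.monomial ((i : ℕ) + 1) (f (Pi.single i 1))) -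
      Polynomial.C (f (mom d 1))
    have hfx : ∀ x : Fin d → ℝ, f x = ∑ i : Fin d, x i * f (Pi.single i 1) := by
      intro x
      have h1 : x = ∑ i : Fin d, x i • (Pi.single i (1 : ℝ) : Fin d → ℝ) := by
        funext l
        rw [Finset.sum_apply]
        simp [Pi.single_apply]
      conv_lhs => rw [h1]
      rw [map_sum]
      simp only [map_smul, smul_eq_mul]
    have hp : p = 0 := by
      refine Polynomial.eq_zero_of_natDegree_lt_card_of_eval_eq_zero' p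
        ((Finset.Icc 1 r).image (fun j : ℕ => (j : ℝ))) ?_ ?_
      · intro x hx
        rw [Finset.mem_image] at hx
        obtain ⟨j, hj, rfl⟩ := hx
        rw [Finset.mem_Icc] at hj
        have h1 := hf _ (hmem j hj.1 hj.2) _ (hmem 1 le_rfl (by omega))
        simp only [p, Polynomial.eval_sub, Polynomial.eval_C, Polynomial.eval_finsetSum,
          Polynomial.eval_monomial]
        rw [sub_eq_zero, ← h1, hfx (mom d j)]
        exact Finset.sum_congr rfl (fun i _ => by rw [mom]; ring)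
      · have hc : ((Finset.Icc 1 r).image (fun j : ℕ => (j : ℝ))).card = r := by
          rw [Finset.card_image_of_injective _ Nat.cast_injective]
          simp
        rw [hc]
        have : p.natDegree ≤ d := by
          refine (Polynomial.natDegree_sub_le _ _).trans ?_
          rw [Polynomial.natDegree_C, max_eq_left (Nat.zero_le _)]
          refine Polynomial.natDegree_sum_le_of_forall_le _ _ (fun i _ => ?_)
          exact (Polynomial.natDegree_monomial_le _).trans i.2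
        omega
    have hcoef : ∀ i : Fin d, f (Pi.single i 1) = 0 := by
      intro i
      have h1 : p.coeff ((i : ℕ) + 1) = 0 := by rw [hp, Polynomial.coeff_zero]
      simp only [p, Polynomial.coeff_sub, Polynomial.finsetSum_coeff, Polynomial.coeff_monomial,
        Polynomial.coeff_C_succ, sub_zero] at h1
      rw [Finset.sum_eq_single i] at h1
      · simpa using h1
      · intro b _ hb
        rw [if_neg]
        intro h
        apply hb
        exact Fin.ext (by omega)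
      · intro h
        exact absurd (Finset.mem_univ _) h
    ext x
    simp [hcoef]

theorem mom_pos (hd : 2 ≤ d) (r : ℕ) : ∀ z ∈ mom d '' Set.Iic r,
    z ∉ convexHull ℝ ((mom d '' Set.Iic r) \ {z}) := by
  rintro _ ⟨j, -, rfl⟩ h
  let F : (Fin d → ℝ) → ℝ := fun z => z ⟨1, hd⟩ - 2 * j * z ⟨0, by omega⟩
  have hconv : Convex ℝ {z : Fin d → ℝ | -(j : ℝ) ^ 2 < F z} := by
    intro x hx y hy a b ha hb hab
    simp only [mem_ofPred_eq, F] at hx hy ⊢
    simp only [Pi.add_apply, Pi.smul_apply, smul_eq_mul]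
    have e1 : (a + b) * (-(j : ℝ) ^ 2) = -(j : ℝ) ^ 2 := by rw [hab]; ring
    rcases ha.lt_or_eq with h1 | h1
    · nlinarith [mul_lt_mul_of_pos_left hx h1, mul_le_mul_of_nonneg_left hy.le hb]
    · have hb1 : b = 1 := by linarith
      rw [← h1, hb1]
      linarith
  have hsub : (mom d '' Set.Iic r) \ {mom d j} ⊆ {z : Fin d → ℝ | -(j : ℝ) ^ 2 < F z} := by
    rintro _ ⟨⟨i, -, rfl⟩, hne⟩
    have hij : (i : ℝ) - j ≠ 0 := by
      intro h0
      apply hne
      have : (i : ℝ) = j := by linarith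
      have : i = j := by exact_mod_cast this
      rw [this]
      rfl
    have := sq_pos_of_ne_zero hij
    simp only [mem_ofPred_eq, F, mom]
    simp only [zero_add, pow_one]
    norm_num
    nlinarith
  have h1 := convexHull_min hsub hconv h
  simp only [mem_ofPred_eq, F, mom] at h1
  simp only [zero_add, pow_one] at h1
  norm_num at h1
  nlinarith

theorem poly_exp (K C : ℕ) : ∃ n0 : ℕ, ∀ n, n0 ≤ n → 2 ^ C * n ^ K ≤ 2 ^ n := by
  have h := tendsto_pow_const_div_const_pow_of_one_lt K (r := (2 : ℝ)) (by norm_num)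
  have h2 := h.eventually_lt_const (u := 1 / 2 ^ C) (by positivity)
  rw [eventually_atTop] at h2
  obtain ⟨n0, hn0⟩ := h2
  refine ⟨n0, fun n hn => ?_⟩
  have h3 := hn0 n hn
  rw [div_lt_div_iff₀ (by positivity) (by positivity)] at h3
  have h4 : (2 : ℝ) ^ C * (n : ℝ) ^ K ≤ 2 ^ n := by linarith
  exact_mod_cast h4

/-- Conductance bound for fixed dimension. -/
theorem Phi_fixed_d (hd : 2 ≤ d) (M : ℕ) (hM : 1 ≤ M) :
    ∃ k0, ∀ k, k0 ≤ k → PhiWit (Lam d k) (2 / M) := by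
  obtain ⟨n0, hn0⟩ := poly_exp (d * d * (M + d + 1)) (M + d + 1 + d + 3)
  refine ⟨(n0 + d + 2) ^ d, fun k hk => ?_⟩
  -- the integer part of the d-th root
  have hex : ∃ r, n0 + d + 2 ≤ r ∧ r ^ d ≤ k ∧ k < (r + 1) ^ d := by
    have hbdd : ∀ r, r ^ d ≤ k → r ≤ k := fun r hr => (Nat.le_self_pow (by omega) r).trans hr
    refine ⟨Nat.findGreatest (fun r => r ^ d ≤ k) k, Nat.le_findGreatest (hbdd _ hk) hk,
      Nat.findGreatest_spec (P := fun r => r ^ d ≤ k) (hbdd _ hk) hk, ?_⟩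
    by_contra h
    rw [not_lt] at h
    exact Nat.findGreatest_is_greatest (Nat.lt_succ_self _) (hbdd _ h) h
  obtain ⟨r, hr0, hr1, hr2⟩ := hex
  refine Phi_of_Z k M hM (mom d '' Set.Iic r) ((Set.finite_Iic r).image _) ?_ ?_
    (mom_pos hd r) ⟨0, by simp, mom_zero⟩ (mom_span (by omega) r (by omega)) ?_
  · rintro _ ⟨j, hj, rfl⟩ i
    have hj' : j ≤ r := hj
    refine ⟨by simp only [mom]; positivity, ?_⟩
    simp only [mom]
    have h1 : j ^ ((i : ℕ) + 1) ≤ k := by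
      calc j ^ ((i : ℕ) + 1) ≤ r ^ ((i : ℕ) + 1) := Nat.pow_le_pow_left hj' _
        _ ≤ r ^ d := Nat.pow_le_pow_right (by omega) i.2
        _ ≤ k := hr1
    exact_mod_cast h1
  · rintro _ ⟨j, hj, rfl⟩ i
    exact ⟨(j : ℤ) ^ ((i : ℕ) + 1), by simp [mom]⟩
  · rw [(mom_inj (by omega)).injOn.ncard_image]
    have hc : (Set.Iic r).ncard = r + 1 := by
      rw [Set.ncard_eq_toFinset_card']
      simp
    rw [hc]
    have h1 := hn0 (r + 1) (by omega)
    set E := M + d + 1 with hE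
    have h2 : (k + 1) ^ d + 1 ≤ 2 * (r + 1) ^ (d * d) := by
      have e1 : (k + 1) ^ d ≤ ((r + 1) ^ d) ^ d := Nat.pow_le_pow_left hr2 d
      rw [← pow_mul] at e1
      have e2 : 1 ≤ (r + 1) ^ (d * d) := Nat.one_le_pow _ _ (by omega)
      omega
    have h3 : ((k + 1) ^ d + 1) ^ E ≤ 2 ^ E * (r + 1) ^ (d * d * E) := by
      refine (Nat.pow_le_pow_left h2 E).trans ?_
      rw [mul_pow, ← pow_mul]
    have h4 : 2 ^ (r + 1) = 2 ^ (r + 1 - (d + 2)) * 2 ^ (d + 2) := by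
      rw [← pow_add]
      congr 1
      omega
    have h5 : 2 ^ (E + d + 3) = 2 * 2 ^ E * 2 ^ (d + 2) := by
      rw [show E + d + 3 = 1 + E + (d + 2) by ring, pow_add, pow_add, pow_one]
    rw [h4, h5] at h1
    have h6 : (2 * 2 ^ E * (r + 1) ^ (d * d * E)) * 2 ^ (d + 2) ≤
        2 ^ (r + 1 - (d + 2)) * 2 ^ (d + 2) := by
      calc _ = 2 * 2 ^ E * 2 ^ (d + 2) * (r + 1) ^ (d * d * E) := by ring
        _ ≤ _ := h1
    have h7 := Nat.le_of_mul_le_mul_right h6 (by positivity)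
    calc 2 * ((k + 1) ^ d + 1) ^ E ≤ 2 * (2 ^ E * (r + 1) ^ (d * d * E)) :=
          Nat.mul_le_mul_left _ h3
      _ = 2 * 2 ^ E * (r + 1) ^ (d * d * E) := by ring
      _ ≤ _ := h7

/-- The vertices of the cube. -/
def cv (d k : ℕ) (b : Fin d → Bool) : Fin d → ℝ := fun i => if b i = true then (k : ℝ) else 0

theorem cv_inj {k : ℕ} (hk : 1 ≤ k) : Function.Injective (cv d k) := by
  intro a b h
  have hk' : (k : ℝ) ≠ 0 := by
    have : (1 : ℝ) ≤ k := by exact_mod_cast hk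
    positivity
  funext i
  have := congrFun h i
  simp only [cv] at this
  cases ha : a i <;> cases hb : b i <;> simp [ha, hb] at this ⊢
  · exact absurd this.symm (by omega)
  · exact absurd this (by omega)

theorem cv_corner {k : ℕ} (b : Fin d → Bool) (i : Fin d) : cv d k b i = 0 ∨ cv d k b i = k := by
  simp only [cv]
  cases b i <;> simp

theorem cv_span (hd : 2 ≤ d) {k : ℕ} (hk : 1 ≤ k) :
    affineSpan ℝ (Set.range (cv d k) \ {0}) = ⊤ := by
  have hk' : (k : ℝ) ≠ 0 := by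
    have : (1 : ℝ) ≤ k := by exact_mod_cast hk
    positivity
  have h1 : cv d k (fun _ => true) ∈ Set.range (cv d k) \ {0} := by
    refine ⟨⟨_, rfl⟩, ?_⟩
    intro h
    have := congrFun h ⟨0, by omega⟩
    simp [cv] at this
    omega
  have h2 : ∀ i : Fin d, cv d k (fun j => decide (j ≠ i)) ∈ Set.range (cv d k) \ {0} := by
    intro i
    refine ⟨⟨_, rfl⟩, ?_⟩
    intro h
    obtain ⟨j, hj⟩ : ∃ j : Fin d, j ≠ i := by
      by_cases h0 : i = ⟨0, by omega⟩
      · exact ⟨⟨1, by omega⟩, by rw [h0]; simp⟩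
      · exact ⟨⟨0, by omega⟩, fun h => h0 h.symm⟩
    have := congrFun h j
    simp [cv, hj] at this
    omega
  apply span_top _ ⟨_, h1⟩
  intro f hf
  have h3 : ∀ i : Fin d, f (Pi.single i 1) = 0 := by
    intro i
    have e1 := hf _ h1 _ (h2 i)
    have e2 : cv d k (fun _ => true) - cv d k (fun j => decide (j ≠ i)) =
        (k : ℝ) • (Pi.single i (1 : ℝ) : Fin d → ℝ) := by
      funext j
      by_cases h : j = i
      · subst h
        simp [cv]
      · simp [cv, h]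
    have e3 : f (cv d k (fun _ => true) - cv d k (fun j => decide (j ≠ i))) = 0 := by
      rw [map_sub, e1, sub_self]
    rw [e2, map_smul, smul_eq_mul] at e3
    exact (mul_eq_zero.1 e3).resolve_left hk'
  ext x
  simp [h3]

/-- Conductance bound for fixed side. -/
theorem Phi_fixed_k (k : ℕ) (hk : 1 ≤ k) (M : ℕ) (hM : 1 ≤ M) :
    ∃ d0, ∀ d, d0 ≤ d → PhiWit (Lam d k) (2 / M) := by
  obtain ⟨n0, hn0⟩ := poly_exp 2 ((k + 2) * (M + 2) + 4)
  refine ⟨n0 + 2, fun d hd => ?_⟩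
  refine Phi_of_Z k M hM (Set.range (cv d k)) (Set.toFinite _) ?_ ?_ ?_ ?_
    (cv_span (by omega) hk) ?_
  · rintro _ ⟨b, rfl⟩
    exact (corner_ext (cv_corner b)).1
  · rintro _ ⟨b, rfl⟩ i
    rcases cv_corner (k := k) b i with h | h
    · exact ⟨0, by simp [h]⟩
    · exact ⟨k, by simp [h]⟩
  · rintro _ ⟨b, rfl⟩ h
    have h1 := corner_mem (k := k) (cv_corner b) ?_ h
    · exact h1.2 rfl
    · rintro _ ⟨⟨b', rfl⟩, -⟩
      exact (corner_ext (cv_corner b')).1
  · refine ⟨fun _ => false, ?_⟩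
    funext i
    simp [cv]
  · have hc : (Set.range (cv d k)).ncard = 2 ^ d := by
      rw [← Set.image_univ, (cv_inj hk).injOn.ncard_image, Set.ncard_univ]
      simp
    rw [hc]
    have h1 := hn0 d (by omega)
    have h2 : (k + 1) ^ d + 1 ≤ 2 ^ ((k + 1) * d + 1) := by
      have e1 : k + 1 ≤ 2 ^ (k + 1) := Nat.lt_two_pow_self.le
      have e2 := Nat.pow_le_pow_left e1 d
      rw [← pow_mul] at e2
      have e3 : 1 ≤ 2 ^ ((k + 1) * d) := Nat.one_le_two_pow
      rw [pow_succ]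
      omega
    have h3 : 1 + ((k + 1) * d + 1) * (M + d + 1) + (d + 2) ≤ 2 ^ d := by
      refine le_trans ?_ h1
      have e1 : (k + 2) * (M + 2) + 4 ≤ 2 ^ ((k + 2) * (M + 2) + 4) := Nat.lt_two_pow_self.le
      refine le_trans ?_ (Nat.mul_le_mul_right _ e1)
      obtain ⟨e, rfl⟩ : ∃ e, d = e + 1 := ⟨d - 1, by omega⟩
      nlinarith [Nat.zero_le (k * M * e), Nat.zero_le (k * M * e * e), Nat.zero_le (k * e),
        Nat.zero_le (M * e), Nat.zero_le (k * e * e), Nat.zero_le (M * e * e), Nat.zero_le (e * e)]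
    calc 2 * ((k + 1) ^ d + 1) ^ (M + d + 1) ≤ 2 * (2 ^ ((k + 1) * d + 1)) ^ (M + d + 1) :=
          Nat.mul_le_mul_left _ (Nat.pow_le_pow_left h2 _)
      _ = 2 ^ (1 + ((k + 1) * d + 1) * (M + d + 1)) := by
          rw [← pow_mul, pow_add, pow_one]
      _ ≤ 2 ^ (2 ^ d - (d + 2)) := Nat.pow_le_pow_right (by norm_num) (by omega)

theorem tendsto_of_bounds (F : ℕ → ℝ) (h0 : ∀ n, 0 ≤ F n)
    (h : ∀ M : ℕ, 1 ≤ M → ∃ n0, ∀ n, n0 ≤ n → F n ≤ 2 / M) : Tendsto F atTop (𝓝 0) := by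
  rw [Metric.tendsto_atTop]
  intro ε hε
  obtain ⟨M, hM⟩ := exists_nat_gt (2 / ε)
  have hM0 : (0 : ℝ) < M := lt_trans (by positivity) hM
  have hM1 : 1 ≤ M := by
    have : 0 < M := by exact_mod_cast hM0
    omega
  obtain ⟨n0, hn0⟩ := h M hM1
  refine ⟨n0, fun n hn => ?_⟩
  rw [Real.dist_eq, sub_zero, abs_of_nonneg (h0 n)]
  refine (hn0 n hn).trans_lt ?_
  rw [div_lt_iff₀ hM0]
  rw [div_lt_iff₀ hε] at hM
  linarith

theorem Phi_tendsto_k (hd : 2 ≤ d) : Tendsto (fun k => PhiExp (Lam d k)) atTop (𝓝 0) :=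
  tendsto_of_bounds _ (fun _ => PhiExp_nonneg _) (fun M hM => by
    obtain ⟨k0, h⟩ := Phi_fixed_d hd M hM
    exact ⟨k0, fun k hk => (h k hk).le⟩)

theorem Phi_tendsto_d (k : ℕ) (hk : 1 ≤ k) : Tendsto (fun d => PhiExp (Lam d k)) atTop (𝓝 0) :=
  tendsto_of_bounds (fun d => PhiExp (Lam d k)) (fun _ => PhiExp_nonneg _)
    (fun M hM => by
      obtain ⟨d0, h⟩ := Phi_fixed_k k hk M hM
      exact ⟨d0, fun d hd => (h d hd).le⟩)

/-- Explicit sets: from the bound `2 / M` for every `M` to every `ε`. -/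
theorem wit_eps (Q : ℕ → ℝ → Prop) (hmono : ∀ n δ ε, δ < ε → Q n δ → Q n ε)
    (h : ∀ M : ℕ, 1 ≤ M → ∃ n0, ∀ n, n0 ≤ n → Q n (2 / M)) (ε : ℝ) (hε : 0 < ε) :
    ∃ n0, ∀ n, n0 ≤ n → Q n ε := by
  obtain ⟨M, hM⟩ := exists_nat_gt (2 / ε)
  have hM0 : (0 : ℝ) < M := lt_trans (by positivity) hM
  have hM1 : 1 ≤ M := by
    have : 0 < M := by exact_mod_cast hM0
    omega
  obtain ⟨n0, hn0⟩ := h M hM1
  refine ⟨n0, fun n hn => hmono n _ _ ?_ (hn0 n hn)⟩
  rw [div_lt_iff₀ hM0]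
  rw [div_lt_iff₀ hε] at hM
  linarith

theorem PhiWit.mono {V : Type*} {G : SimpleGraph V} {δ ε : ℝ} (hδ : δ < ε) (h : PhiWit G δ) :
    PhiWit G ε := by
  obtain ⟨S, h1, h2, h3, h4⟩ := h
  exact ⟨S, h1, h2, h3, h4.trans hδ.le⟩

theorem Phi_wit_k (hd : 2 ≤ d) (ε : ℝ) (hε : 0 < ε) :
    ∃ k0, ∀ k, k0 ≤ k → PhiWit (Lam d k) ε :=
  wit_eps (fun k δ => PhiWit (Lam d k) δ) (fun _ _ _ h1 h2 => h2.mono h1)
    (fun M hM => Phi_fixed_d hd M hM) ε hε

theorem Phi_wit_d (k : ℕ) (hk : 1 ≤ k) (ε : ℝ) (hε : 0 < ε) :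
    ∃ d0, ∀ d, d0 ≤ d → PhiWit (Lam d k) ε :=
  wit_eps (fun d δ => PhiWit (Lam d k) δ) (fun _ _ _ h1 h2 => h2.mono h1)
    (fun M hM => Phi_fixed_k k hk M hM) ε hε

end H555LP
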