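import Pool.Agent.H555LP.Deg

namespace H555LP

open Set

variable {d : ℕ}

/-- The polytopes containing the corner `0`. -/
def S0 (d k : ℕ) : Set (PolyIn (cube d k)) := {P | (0 : Fin d → ℝ) ∈ P.1}

/-- A point of the cube all of whose coordinates are extreme is an extreme point. -/
theorem corner_ext {k : ℕ} {v : Fin d → ℝ} (hv : ∀ i, v i = 0 ∨ v i = k) :
    v ∈ (cube d k).extremePoints ℝ := by
  have hk : (0 : ℝ) ≤ k := by positivity
  rw [mem_extremePoints_iff_left]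
  refine ⟨fun i => ?_, ?_⟩
  · rcases hv i with h | h
    · rw [h]
      exact ⟨le_rfl, hk⟩
    · rw [h]
      exact ⟨hk, le_rfl⟩
  · rintro a ha b hb ⟨s, t, hs, ht, hst, rfl⟩
    funext i
    obtain ⟨a1, a2⟩ := ha i
    obtain ⟨b1, b2⟩ := hb i
    have h := hv i
    simp only [Pi.add_apply, Pi.smul_apply, smul_eq_mul] at h ⊢
    rcases h with h | h
    · have h1 : s * a i = 0 := by
        have e1 : 0 ≤ s * a i := mul_nonneg hs.le a1
        have e2 : 0 ≤ t * b i := mul_nonneg ht.le b1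
        linarith
      rcases mul_eq_zero.1 h1 with h2 | h2
      · exact absurd h2 hs.ne'
      · rw [h, h2]
    · have h1 : s * (k - a i) = 0 := by
        have e1 : 0 ≤ s * (k - a i) := mul_nonneg hs.le (by linarith)
        have e2 : 0 ≤ t * (k - b i) := mul_nonneg ht.le (by linarith)
        have e3 : s * (k - a i) + t * (k - b i) = 0 := by
          calc s * (k - a i) + t * (k - b i) = (s + t) * k - (s * a i + t * b i) := by ring
            _ = 0 := by rw [hst, h]; ring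
        linarith
      rcases mul_eq_zero.1 h1 with h2 | h2
      · exact absurd h2 hs.ne'
      · rw [h]
        linarith

theorem corner_mem {k : ℕ} {v : Fin d → ℝ} (hv : ∀ i, v i = 0 ∨ v i = k)
    {Y : Set (Fin d → ℝ)} (hY : Y ⊆ cube d k) (h : v ∈ convexHull ℝ Y) : v ∈ Y := by
  have h1 := inter_extremePoints_subset_extremePoints_of_subset (cube_conv_sub hY)
    ⟨h, corner_ext hv⟩
  exact extremePoints_convexHull_subset h1

theorem cut_key0 {k : ℕ} {P Q : PolyIn (cube d k)} (hP : P ∈ S0 d k) (hQ : Q ∉ S0 d k)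
    (hadj : (Lam d k).Adj P Q) : IsInsertion Q.1 0 P.1 := by
  obtain ⟨hne, ⟨x, hx⟩ | ⟨x, hx⟩⟩ := hadj
  · exact absurd (ins_sub hx hP) hQ
  · have h1 : (0 : Fin d → ℝ) ∈ P.1.extremePoints ℝ :=
      inter_extremePoints_subset_extremePoints_of_subset P.2.1
        ⟨hP, corner_ext (fun i => Or.inl rfl)⟩
    rw [hx.2] at h1
    rcases h1 with h1 | h1
    · exact absurd (extremePoints_subset h1) hQ
    · rw [mem_singleton_iff] at h1
      rw [h1]
      exact hx

theorem cut0_le (k : ℕ) : cut (Lam d k) (S0 d k) ≤ (S0 d k).ncard := by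
  have : Finite (PolyIn (cube d k)) := (poly_finite d k).to_subtype
  refine Set.ncard_le_ncard_of_injOn (fun p => p.1) (fun p hp => hp.1) ?_ (Set.toFinite _)
  rintro ⟨P, Q⟩ ⟨hP, hQ, hadj⟩ ⟨P', Q'⟩ ⟨hP', hQ', hadj'⟩ h
  simp only at h hP hQ hadj hP' hQ' hadj'
  subst h
  have e1 := ins_det Q.2 (cut_key0 hP hQ hadj) (fun h => hadj.1 (Subtype.ext h.symm))
  have e2 := ins_det Q'.2 (cut_key0 hP' hQ' hadj') (fun h => hadj'.1 (Subtype.ext h.symm))
  have : Q = Q' := Subtype.ext (e1.trans e2.symm)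
  rw [this]

theorem cut0_le' (k : ℕ) : cut (Lam d k) (S0 d k) ≤ (S0 d k)ᶜ.ncard := by
  have : Finite (PolyIn (cube d k)) := (poly_finite d k).to_subtype
  refine Set.ncard_le_ncard_of_injOn (fun p => p.2) (fun p hp => hp.2.1) ?_ (Set.toFinite _)
  rintro ⟨P, Q⟩ ⟨hP, hQ, hadj⟩ ⟨P', Q'⟩ ⟨hP', hQ', hadj'⟩ h
  simp only at h hP hQ hadj hP' hQ' hadj'
  subst h
  have e1 := (cut_key0 hP hQ hadj).1
  have e2 := (cut_key0 hP' hQ' hadj').1
  have : P = P' := Subtype.ext (e1.trans e2.symm)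
  rw [this]

theorem cut_compl {V : Type*} [Finite V] (G : SimpleGraph V) (S : Set V) :
    cut G Sᶜ = cut G S := by
  unfold cut
  have : {p : V × V | p.1 ∈ Sᶜ ∧ p.2 ∉ Sᶜ ∧ G.Adj p.1 p.2} =
      Prod.swap '' {p : V × V | p.1 ∈ S ∧ p.2 ∉ S ∧ G.Adj p.1 p.2} := by
    ext ⟨a, b⟩
    simp only [mem_ofPred_eq, mem_compl_iff, not_not, mem_image, Prod.exists, Prod.swap_prod_mk,
      Prod.mk.injEq]
    constructor
    · rintro ⟨h1, h2, h3⟩
      exact ⟨b, a, ⟨h2, h1, h3.symm⟩, rfl, rfl⟩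
    · rintro ⟨c, e, ⟨h1, h2, h3⟩, rfl, rfl⟩
      exact ⟨h2, h1, h3.symm⟩
  rw [this, Set.ncard_image_of_injective _ Prod.swap_injective]

theorem vol_compl {V : Type*} [Finite V] (G : SimpleGraph V) (S : Set V) :
    vol G S + vol G Sᶜ = vol G Set.univ := by
  unfold vol
  rw [← Set.ncard_union_eq]
  · congr 1
    ext ⟨a, b⟩
    simp only [mem_union, mem_ofPred_eq, mem_compl_iff, mem_univ, true_and]
    tauto
  · rw [Set.disjoint_left]
    rintro ⟨a, b⟩ h1 h2
    exact h2.1 h1.1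

theorem PhiExp_le {V : Type*} (G : SimpleGraph V) (S : Set V) (hS : S.Nonempty)
    (h0 : 0 < vol G S) (h2 : 2 * vol G S ≤ vol G Set.univ) :
    PhiExp G ≤ (cut G S : ℝ) / (vol G S : ℝ) := by
  refine csInf_le ⟨0, ?_⟩ ⟨S, hS, h0, h2, rfl⟩
  rintro r ⟨S', -, -, -, rfl⟩
  positivity

theorem PhiExp_nonneg {V : Type*} (G : SimpleGraph V) : 0 ≤ PhiExp G := by
  refine Real.sInf_nonneg ?_
  rintro r ⟨S', -, -, -, rfl⟩
  positivity

theorem hExp_nonneg {V : Type*} (G : SimpleGraph V) : 0 ≤ hExp G := by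
  refine Real.sInf_nonneg ?_
  rintro r ⟨S', -, -, rfl⟩
  positivity

/-- The set `S` witnesses that the conductance is at most `δ`. -/
def PhiWit {V : Type*} (G : SimpleGraph V) (δ : ℝ) : Prop :=
  ∃ S : Set V, S.Nonempty ∧ 0 < vol G S ∧ 2 * vol G S ≤ vol G Set.univ ∧
    (cut G S : ℝ) / (vol G S : ℝ) ≤ δ

theorem PhiWit.le {V : Type*} {G : SimpleGraph V} {δ : ℝ} (h : PhiWit G δ) : PhiExp G ≤ δ := by
  obtain ⟨S, h1, h2, h3, h4⟩ := h
  exact (PhiExp_le G S h1 h2 h3).trans h4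

/-- The main estimate for the conductance. -/
theorem Phi_main (k M : ℕ) (hM : 1 ≤ M)
    (h1 : 2 * ((k + 1) ^ d + 1) ^ (M + d + 1) ≤ (S0 d k).ncard)
    (h2 : 2 * ((k + 1) ^ d + 1) ^ (M + d + 1) ≤ (S0 d k)ᶜ.ncard) :
    PhiWit (Lam d k) (2 / M) := by
  have : Finite (PolyIn (cube d k)) := (poly_finite d k).to_subtype
  have hM' : (0 : ℝ) < M := by exact_mod_cast hM
  have hpow : 0 < ((k + 1) ^ d + 1) ^ (M + d + 1) := by positivity
  have key : ∀ S : Set (PolyIn (cube d k)), 0 < S.ncard →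
      S.ncard * M ≤ 2 * vol (Lam d k) S → cut (Lam d k) S ≤ S.ncard →
      2 * vol (Lam d k) S ≤ vol (Lam d k) Set.univ → PhiWit (Lam d k) (2 / M) := by
    intro S h0 hv hc hh
    have hv0 : 0 < vol (Lam d k) S := by
      have : 0 < S.ncard * M := Nat.mul_pos h0 hM
      omega
    refine ⟨S, Set.nonempty_of_ncard_ne_zero h0.ne', hv0, hh, ?_⟩
    have hv0' : (0 : ℝ) < vol (Lam d k) S := by exact_mod_cast hv0
    rw [div_le_div_iff₀ hv0' hM']
    have e1 : (S.ncard : ℝ) * M ≤ 2 * vol (Lam d k) S := by exact_mod_cast hv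
    have e2 : (cut (Lam d k) S : ℝ) ≤ S.ncard := by exact_mod_cast hc
    nlinarith
  have hv := vol_compl (Lam d k) (S0 d k)
  by_cases h : 2 * vol (Lam d k) (S0 d k) ≤ vol (Lam d k) Set.univ
  · exact key _ (by omega) (vol_ge _ M h1) (cut0_le k) h
  · refine key _ (by omega) (vol_ge _ M h2) ?_ (by omega)
    rw [cut_compl]
    exact cut0_le' k

/-- Many polytopes from a set in convex position. -/
theorem many_polys (k : ℕ) (Z : Set (Fin d → ℝ)) (hZf : Z.Finite) (hZc : Z ⊆ cube d k)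
    (hZl : ∀ z ∈ Z, IsLat z) (hpos : ∀ z ∈ Z, z ∉ convexHull ℝ (Z \ {z}))
    (h0 : (0 : Fin d → ℝ) ∈ Z) (hspan : affineSpan ℝ (Z \ {0}) = ⊤) :
    2 ^ (Z.ncard - (d + 2)) ≤ (S0 d k).ncard ∧ 2 ^ (Z.ncard - (d + 2)) ≤ (S0 d k)ᶜ.ncard := by
  have hfinV : Finite (PolyIn (cube d k)) := (poly_finite d k).to_subtype
  obtain ⟨A, hA, hAf, hAc, hAspan⟩ := exists_base _ hspan
  set X := (Z \ {0}) \ A with hX
  have hXf : X.Finite := (hZf.subset sdiff_subset).subset sdiff_subset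
  have hXc : Z.ncard - (d + 2) ≤ X.ncard := by
    have e1 := Set.le_ncard_sdiff A (Z \ {0}) hAf
    rw [← hX] at e1
    have e2 := Set.le_ncard_sdiff {(0 : Fin d → ℝ)} Z (Set.finite_singleton _)
    rw [Set.ncard_singleton] at e2
    omega
  have hpow : 2 ^ (Z.ncard - (d + 2)) ≤ (𝒫 X).ncard := by
    rw [Set.ncard_powerset X hXf]
    exact Nat.pow_le_pow_right (by norm_num) hXc
  -- general injection
  have gen : ∀ A' : Set (Fin d → ℝ), A ⊆ A' → A' ⊆ Z → Disjoint A' X → ∀ S : Set (PolyIn (cube d k)),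
      (∀ P : PolyIn (cube d k), ∀ Y, Y ⊆ X → P.1 = convexHull ℝ (A' ∪ Y) → P ∈ S) →
      2 ^ (Z.ncard - (d + 2)) ≤ S.ncard := by
    intro A' hAA' hA'Z hdis S hS
    refine hpow.trans ?_
    have hsub : ∀ Y, Y ⊆ X → A' ∪ Y ⊆ Z := fun Y hY =>
      union_subset hA'Z (hY.trans (sdiff_subset.trans sdiff_subset))
    have hmem : ∀ Y, Y ⊆ X → convexHull ℝ (A' ∪ Y) ∈ PolyIn (cube d k) := by
      intro Y hY
      refine ⟨cube_conv_sub ((hsub Y hY).trans hZc), ?_, _, hZf.subset (hsub Y hY),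
        fun x hx => hZl x (hsub Y hY hx), rfl⟩
      apply span_interior
      rw [eq_top_iff, ← hAspan]
      exact affineSpan_mono ℝ (hAA'.trans subset_union_left)
    have hext : ∀ Y, Y ⊆ X → (convexHull ℝ (A' ∪ Y)).extremePoints ℝ = A' ∪ Y := by
      intro Y hY
      refine ext_conv_of_pos (hZf.subset (hsub Y hY)) (fun z hz h => ?_)
      exact hpos z (hsub Y hY hz) (convexHull_mono (sdiff_subset_sdiff_left (hsub Y hY)) h)
    have himg : (fun Y => convexHull ℝ (A' ∪ Y)) '' 𝒫 X ⊆ Subtype.val '' S := by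
      rintro _ ⟨Y, hY, rfl⟩
      exact ⟨⟨_, hmem Y hY⟩, hS _ Y hY rfl, rfl⟩
    have hinj : Set.InjOn (fun Y => convexHull ℝ (A' ∪ Y)) (𝒫 X) := by
      intro Y hY Y' hY' h
      simp only at h
      have e1 : A' ∪ Y = A' ∪ Y' := by
        rw [← hext Y hY, ← hext Y' hY', h]
      have e2 : ∀ W, W ⊆ X → (A' ∪ W) \ A' = W := by
        intro W hW
        rw [union_sdiff_left]
        exact sdiff_eq_left.2 ((hdis.mono_right hW).symm)
      rw [← e2 Y hY, ← e2 Y' hY', e1]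
    rw [← hinj.ncard_image, ← Set.ncard_image_of_injective S Subtype.val_injective]
    exact Set.ncard_le_ncard himg (Set.toFinite _)
  constructor
  · refine gen (insert 0 A) (subset_insert _ _) (insert_subset h0 (hA.trans sdiff_subset)) ?_ _ ?_
    · rw [Set.disjoint_left]
      rintro x (rfl | hx) hxX
      · exact hxX.1.2 rfl
      · exact hxX.2 hx
    · intro P Y hY hP
      show (0 : Fin d → ℝ) ∈ P.1
      rw [hP]
      exact subset_convexHull ℝ _ (Or.inl (Or.inl rfl))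
  · refine gen A Subset.rfl (hA.trans sdiff_subset) ?_ _ ?_
    · rw [Set.disjoint_left]
      intro x hx hxX
      exact hxX.2 hx
    · intro P Y hY hP h
      have h' : (0 : Fin d → ℝ) ∈ P.1 := h
      rw [hP] at h'
      have h3 : (0 : Fin d → ℝ) ∈ A ∪ Y := corner_mem (fun i => Or.inl rfl)
        (union_subset ((hA.trans sdiff_subset).trans hZc)
          (hY.trans ((sdiff_subset.trans sdiff_subset).trans hZc))) h'
      rcases h3 with h3 | h3
      · exact (hA h3).2 rfl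
      · exact (hY h3).1.2 rfl

theorem Phi_of_Z (k M : ℕ) (hM : 1 ≤ M) (Z : Set (Fin d → ℝ)) (hZf : Z.Finite)
    (hZc : Z ⊆ cube d k)
    (hZl : ∀ z ∈ Z, IsLat z) (hpos : ∀ z ∈ Z, z ∉ convexHull ℝ (Z \ {z}))
    (h0 : (0 : Fin d → ℝ) ∈ Z) (hspan : affineSpan ℝ (Z \ {0}) = ⊤)
    (hlarge : 2 * ((k + 1) ^ d + 1) ^ (M + d + 1) ≤ 2 ^ (Z.ncard - (d + 2))) :
    PhiWit (Lam d k) (2 / M) := by
  obtain ⟨h1, h2⟩ := many_polys k Z hZf hZc hZl hpos h0 hspan
  exact Phi_main k M hM (hlarge.trans h1) (hlarge.trans h2)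

end H555LP
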