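import Pool.Agent.H555LP.Growth

namespace H555LP

open Set
open scoped Pointwise

/-- The number of polygons in the square of side `k` that touch its right side. -/
noncomputable def g (k : ℕ) : ℕ := (U k k).ncard

theorem U_ge (k J n : ℕ) (hn : k + J = n) : g k ≤ (U n k).ncard := by
  subst hn
  exact U_card_mono k k J

theorem g_mono {k n : ℕ} (h : k ≤ n) : g k ≤ g n := by
  obtain ⟨J, rfl⟩ := Nat.exists_eq_add_of_le h
  exact (U_ge k J _ rfl).trans (Set.ncard_le_ncard (U_mono _ (by omega)) (U_finite _ _))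

theorem g_le (k : ℕ) : g k ≤ (PolyIn (cube 2 k)).ncard := by
  refine Set.ncard_le_ncard ?_ (poly_finite _ _)
  intro P hP
  rw [← box_cube]
  exact hP.1

theorem g_pos {k : ℕ} (hk : 1 ≤ k) : 1 ≤ g k := by
  have hk' : (1 : ℝ) ≤ k := by exact_mod_cast hk
  have h : convexHull ℝ ({0, ![(k : ℝ), 0], ![0, (k : ℝ)]} : Set (Fin 2 → ℝ)) ∈ U k k := by
    refine ⟨⟨?_, ?_, _, Set.toFinite _, ?_, rfl⟩, ![(k : ℝ), 0],
      subset_convexHull ℝ _ (by simp), by simp⟩
    · rw [box_cube]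
      refine convexHull_min ?_ (cube_convex 2 k)
      rintro x (rfl | rfl | rfl) i <;> fin_cases i <;> simp
    · refine ⟨![(1 : ℝ) / 4, 1 / 4], ?_⟩
      rw [mem_interior]
      refine ⟨{x | 0 < x 0 ∧ 0 < x 1 ∧ x 0 + x 1 < 1}, ?_, ?_, ?_⟩
      · rintro x ⟨h0, h1, h2⟩
        rw [convexHull_insert ⟨_, mem_insert _ _⟩, mem_convexJoin]
        refine ⟨0, by simp, ![(k : ℝ) * (x 0 / (x 0 + x 1)), (k : ℝ) * (x 1 / (x 0 + x 1))], ?_, ?_⟩
        · rw [convexHull_pair]
          refine ⟨x 0 / (x 0 + x 1), x 1 / (x 0 + x 1), by positivity, by positivity, ?_, ?_⟩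
          · field_simp
          · funext i
            fin_cases i
            · simp
              ring
            · simp
              ring
        · refine ⟨1 - (x 0 + x 1) / k, (x 0 + x 1) / k, ?_, by positivity, by ring, ?_⟩
          · rw [sub_nonneg, div_le_one (by linarith)]
            linarith
          · have hs : x 0 + x 1 ≠ 0 := by positivity
            have hk0 : (k : ℝ) ≠ 0 := by positivity
            funext i
            fin_cases i
            · simp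
              field_simp
            · simp
              field_simp
      · refine IsOpen.inter ?_ (IsOpen.inter ?_ ?_)
        · exact isOpen_lt continuous_const (continuous_apply 0)
        · exact isOpen_lt continuous_const (continuous_apply 1)
        · exact isOpen_lt ((continuous_apply 0).add (continuous_apply 1)) continuous_const
      · refine ⟨by simp, by simp, ?_⟩
        simp
        norm_num
    · rintro x (rfl | rfl | rfl) i <;> fin_cases i
      · exact ⟨0, by simp⟩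
      · exact ⟨0, by simp⟩
      · exact ⟨k, by simp⟩
      · exact ⟨0, by simp⟩
      · exact ⟨0, by simp⟩
      · exact ⟨k, by simp⟩
  have : 0 < (U k k).ncard := (Set.ncard_pos (U_finite k k)).2 ⟨_, h⟩
  exact this

theorem two_pow_le (m : ℕ) (hm : 1 ≤ m) : 2 * m ^ m ≤ (m + 1) ^ m := by
  obtain ⟨n, rfl⟩ : ∃ n, m = n + 1 := ⟨m - 1, by omega⟩
  have h := one_add_mul_le_pow (R := ℝ) (a := 1 / ((n : ℝ) + 1)) (by
    have : (0 : ℝ) ≤ 1 / ((n : ℝ) + 1) := by positivity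
    linarith) (n + 1)
  have hpos : (0 : ℝ) < (n : ℝ) + 1 := by positivity
  have h2 : (1 : ℝ) + ((n + 1 : ℕ) : ℝ) * (1 / ((n : ℝ) + 1)) = 2 := by
    push_cast
    field_simp
    norm_num
  rw [h2] at h
  have h3 : (1 + 1 / ((n : ℝ) + 1)) = ((n : ℝ) + 1 + 1) / ((n : ℝ) + 1) := by
    field_simp
  rw [h3, div_pow, le_div_iff₀ (by positivity)] at h
  exact_mod_cast h

theorem exists_large (A B : ℕ) : ∃ t : ℕ, 1 ≤ t ∧ A * t + B ≤ 2 ^ t := by
  refine ⟨2 * (2 * A + B + 1), by omega, ?_⟩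
  set s := 2 * A + B + 1 with hs
  have h1 : s < 2 ^ s := Nat.lt_two_pow_self
  have h2 : 2 ^ (2 * s) = 2 ^ s * 2 ^ s := by
    rw [two_mul, pow_add]
  rw [h2]
  have h3 : s * s ≤ 2 ^ s * 2 ^ s := Nat.mul_le_mul h1.le h1.le
  have h4 : A * (2 * s) + B ≤ s * s := by
    have : s * s = (2 * A + B + 1) * s := by rw [← hs]
    rw [this]
    have : B ≤ B * s := Nat.le_mul_of_pos_right _ (by omega)
    nlinarith
  omega

/-- Slow growth of the number of polygons. -/
theorem pigeon (m J K : ℕ) (hm : 1 ≤ m) (hJ : 1 ≤ J) (hK : 1 ≤ K) :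
    ∃ k, K ≤ k ∧ m * g (k + J) ≤ (m + 1) * g k := by
  by_contra hcon
  push Not at hcon
  have h1 : ∀ n, (m + 1) ^ n * g K ≤ m ^ n * g (K + n * J) := by
    intro n
    induction n with
    | zero => simp
    | succ n ih =>
      have h2 := hcon (K + n * J) (by omega)
      have h3 : K + n * J + J = K + (n + 1) * J := by ring
      rw [h3] at h2
      calc (m + 1) ^ (n + 1) * g K = (m + 1) * ((m + 1) ^ n * g K) := by ring
        _ ≤ (m + 1) * (m ^ n * g (K + n * J)) := Nat.mul_le_mul_left _ ih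
        _ = m ^ n * ((m + 1) * g (K + n * J)) := by ring
        _ ≤ m ^ n * (m * g (K + (n + 1) * J)) := Nat.mul_le_mul_left _ h2.le
        _ = m ^ (n + 1) * g (K + (n + 1) * J) := by ring
  have h2 : ∀ q, 2 ^ q ≤ g (K + (m * q) * J) := by
    intro q
    have h3 := h1 (m * q)
    have h4 : (2 * m ^ m) ^ q ≤ ((m + 1) ^ m) ^ q := Nat.pow_le_pow_left (two_pow_le m hm) q
    rw [← pow_mul, mul_pow, ← pow_mul] at h4
    have h5 : m ^ (m * q) * 2 ^ q ≤ m ^ (m * q) * g (K + (m * q) * J) := by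
      calc m ^ (m * q) * 2 ^ q = 2 ^ q * m ^ (m * q) := by ring
        _ ≤ (m + 1) ^ (m * q) := h4
        _ = (m + 1) ^ (m * q) * 1 := by ring
        _ ≤ (m + 1) ^ (m * q) * g K := Nat.mul_le_mul_left _ (g_pos hK)
        _ ≤ _ := h3
    exact Nat.le_of_mul_le_mul_left h5 (by positivity)
  obtain ⟨t, ht1, ht⟩ := exists_large (24 * m * J * 6) (K + 24 * m * J * 4)
  set q := (6 * t + 3) * (12 * (2 ^ t) ^ 2 + 12) + 1 with hq
  have h3 : K + (m * q) * J ≤ (2 ^ t) ^ 3 := by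
    have e1 : 1 ≤ (2 ^ t) ^ 2 := Nat.one_le_pow _ _ (by positivity)
    have e2 : q ≤ (6 * t + 4) * 24 * (2 ^ t) ^ 2 := by
      rw [hq]
      nlinarith
    have e3 : (24 * m * J * 6 * t + (K + 24 * m * J * 4)) * (2 ^ t) ^ 2 ≤ 2 ^ t * (2 ^ t) ^ 2 :=
      Nat.mul_le_mul_right _ ht
    have e4 : m * q * J ≤ m * ((6 * t + 4) * 24 * (2 ^ t) ^ 2) * J :=
      Nat.mul_le_mul_right _ (Nat.mul_le_mul_left _ e2)
    have e5 : K ≤ K * (2 ^ t) ^ 2 := Nat.le_mul_of_pos_right _ e1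
    calc K + (m * q) * J ≤ K * (2 ^ t) ^ 2 + m * ((6 * t + 4) * 24 * (2 ^ t) ^ 2) * J := by omega
      _ = (24 * m * J * 6 * t + (K + 24 * m * J * 4)) * (2 ^ t) ^ 2 := by ring
      _ ≤ 2 ^ t * (2 ^ t) ^ 2 := e3
      _ = (2 ^ t) ^ 3 := by ring
  have h4 : 2 ^ q ≤ (((2 ^ t) ^ 3 + 1) ^ 2 + 1) ^ (12 * (2 ^ t) ^ 2 + 12) :=
    (h2 q).trans ((g_mono h3).trans ((g_le _).trans (count_poly (2 ^ t) (Nat.one_le_two_pow))))
  have h5 : ((2 ^ t) ^ 3 + 1) ^ 2 + 1 ≤ 2 ^ (6 * t + 3) := by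
    have e1 : 1 ≤ (2 ^ t) ^ 3 := Nat.one_le_pow _ _ (by positivity)
    have e2 : (2 : ℕ) ^ (6 * t + 3) = 8 * ((2 ^ t) ^ 3) ^ 2 := by
      rw [pow_add, mul_comm 6 t, pow_mul]
      ring
    rw [e2]
    nlinarith
  have h6 : 2 ^ q ≤ 2 ^ ((6 * t + 3) * (12 * (2 ^ t) ^ 2 + 12)) := by
    refine h4.trans ?_
    rw [pow_mul]
    exact Nat.pow_le_pow_left h5 _
  have h7 := (Nat.pow_le_pow_iff_right (by norm_num : 1 < 2)).1 h6
  omega

end H555LP
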