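import Pool.Agent.H555LP.Count

namespace H555LP

open Set

theorem coordS (e : Bool) (α t : ℝ) (n : ℤ) (hn : t = n)
    (hs : if e = true then 0 ≤ α else α ≤ 0) (k : ℕ) :
    |α| * (((if e = true then n else (k : ℤ) - n : ℤ)) : ℝ) =
      α * t + (if e = true then 0 else -α * k) := by
  cases e
  · simp only [Bool.false_eq_true, if_false] at hs ⊢
    rw [abs_of_nonpos hs, hn]
    push_cast
    ring
  · simp only [if_true] at hs ⊢
    rw [abs_of_nonneg hs, hn]
    ring

theorem ext_notMem_conv {d : ℕ} {B P : Set (Fin d → ℝ)} (hP : P ∈ PolyIn B) {v : Fin d → ℝ}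
    (hv : v ∈ P.extremePoints ℝ) : v ∉ convexHull ℝ (P.extremePoints ℝ \ {v}) := by
  intro h
  have hsub : convexHull ℝ (P.extremePoints ℝ \ {v}) ⊆ P :=
    convexHull_min (sdiff_subset.trans extremePoints_subset) (poly_convex hP)
  have h1 := inter_extremePoints_subset_extremePoints_of_subset hsub ⟨h, hv⟩
  exact (extremePoints_convexHull_subset h1).2 rfl

theorem ext_exposed {B P : Set (Fin 2 → ℝ)} (hP : P ∈ PolyIn B) {v : Fin 2 → ℝ}
    (hv : v ∈ P.extremePoints ℝ) : ∃ α β : ℝ, ∀ w ∈ P.extremePoints ℝ, w ≠ v →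
      α * w 0 + β * w 1 < α * v 0 + β * v 1 := by
  have hfin : (P.extremePoints ℝ \ {v}).Finite := (poly_ext_finite hP).subset sdiff_subset
  obtain ⟨f, u, h1, h2⟩ := geometric_hahn_banach_closed_point
    (convex_convexHull ℝ (P.extremePoints ℝ \ {v})) (hfin.isClosed_convexHull ℝ)
    (ext_notMem_conv hP hv)
  refine ⟨f (fun j => if (0 : Fin 2) = j then 1 else 0),
    f (fun j => if (1 : Fin 2) = j then 1 else 0), fun w hw hne => ?_⟩
  have hf : ∀ x : Fin 2 → ℝ, f x = f (fun j => if (0 : Fin 2) = j then 1 else 0) * x 0 +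
      f (fun j => if (1 : Fin 2) = j then 1 else 0) * x 1 := by
    intro x
    have := LinearMap.pi_apply_eq_sum_univ f.toLinearMap x
    rw [Fin.sum_univ_two] at this
    simp only [ContinuousLinearMap.coe_coe, smul_eq_mul] at this
    rw [this]
    ring
  rw [← hf, ← hf]
  exact (h1 w (subset_convexHull ℝ _ ⟨hw, hne⟩)).trans h2

/-- A lattice polygon in a square of side `k` has few vertices. -/
theorem vert_bound (k R : ℕ) (hR : 1 ≤ R) {P : Set (Fin 2 → ℝ)} (hP : P ∈ PolyIn (cube 2 k)) :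
    (P.extremePoints ℝ).ncard ≤ 4 * (1 + R ^ 2 + 2 * (k / R + 1)) := by
  classical
  set X := (poly_ext_finite hP).toFinset with hXdef
  have hX : ∀ v, v ∈ X ↔ v ∈ P.extremePoints ℝ := fun v => (poly_ext_finite hP).mem_toFinset
  rw [Set.ncard_eq_toFinset_card _ (poly_ext_finite hP)]
  let Xe : Bool × Bool → Finset (Fin 2 → ℝ) := fun e => X.filter (fun v => ∃ α β : ℝ,
    (if e.1 = true then 0 ≤ α else α ≤ 0) ∧ (if e.2 = true then 0 ≤ β else β ≤ 0) ∧
    ∀ w ∈ X, w ≠ v → α * w 0 + β * w 1 < α * v 0 + β * v 1)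
  have hcov : X ⊆ (Finset.univ : Finset (Bool × Bool)).biUnion Xe := by
    intro v hv
    obtain ⟨α, β, h⟩ := ext_exposed hP ((hX v).1 hv)
    rw [Finset.mem_biUnion]
    refine ⟨(decide (0 ≤ α), decide (0 ≤ β)), Finset.mem_univ _, ?_⟩
    simp only [Xe, Finset.mem_filter]
    refine ⟨hv, α, β, ?_, ?_, fun w hw hne => h w ((hX w).1 hw) hne⟩
    · by_cases h0 : 0 ≤ α
      · simp [h0]
      · simp [h0, (not_le.1 h0).le]
    · by_cases h0 : 0 ≤ β
      · simp [h0]
      · simp [h0, (not_le.1 h0).le]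
  have hbd : ∀ e, (Xe e).card ≤ 1 + R ^ 2 + 2 * (k / R + 1) := by
    intro e
    let φ : (Fin 2 → ℝ) → ℤ × ℤ := fun v =>
      ((if e.1 = true then ⌊v 0⌋ else (k : ℤ) - ⌊v 0⌋), (if e.2 = true then ⌊v 1⌋ else (k : ℤ) - ⌊v 1⌋))
    have hfl : ∀ v ∈ X, ∀ i, v i = (⌊v i⌋ : ℝ) := by
      intro v hv i
      obtain ⟨n, hn⟩ := poly_ext_lat hP v ((hX v).1 hv) i
      rw [hn, Int.floor_intCast]
    have hbx : ∀ v ∈ X, ∀ i, 0 ≤ ⌊v i⌋ ∧ ⌊v i⌋ ≤ k := by
      intro v hv i
      have := hP.1 (extremePoints_subset ((hX v).1 hv)) i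
      constructor
      · exact Int.floor_nonneg.2 this.1
      · have h2 : ((⌊v i⌋ : ℤ) : ℝ) ≤ k := by
          rw [← hfl v hv i]
          exact this.2
        exact_mod_cast h2
    have hinj : Set.InjOn φ (Xe e) := by
      intro v hv w hw h
      have hv' := (Finset.mem_filter.1 (Finset.mem_coe.1 hv)).1
      have hw' := (Finset.mem_filter.1 (Finset.mem_coe.1 hw)).1
      simp only [φ, Prod.mk.injEq] at h
      have h0 : ⌊v 0⌋ = ⌊w 0⌋ := by
        have := h.1
        split_ifs at this <;> omega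
      have h1 : ⌊v 1⌋ = ⌊w 1⌋ := by
        have := h.2
        split_ifs at this <;> omega
      funext i
      rw [hfl v hv' i, hfl w hw' i]
      fin_cases i
      · simpa using h0
      · simpa using h1
    rw [← Finset.card_image_of_injOn hinj]
    refine chain_bound _ k R hR ?_ ?_
    · intro v hv
      rw [Finset.mem_image] at hv
      obtain ⟨x, hx, rfl⟩ := hv
      have hx' := (Finset.mem_filter.1 hx).1
      have h0 := hbx x hx' 0
      have h1 := hbx x hx' 1
      simp only [φ]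
      constructor
      · split_ifs <;> omega
      · split_ifs <;> omega
    · intro v hv
      rw [Finset.mem_image] at hv
      obtain ⟨x, hx, rfl⟩ := hv
      have hx' := Finset.mem_filter.1 hx
      obtain ⟨α, β, hα, hβ, hab⟩ := hx'.2
      refine ⟨|α|, |β|, abs_nonneg _, abs_nonneg _, fun w hw hne => ?_⟩
      rw [Finset.mem_image] at hw
      obtain ⟨y, hy, rfl⟩ := hw
      have hy' := (Finset.mem_filter.1 hy).1
      have hyx : y ≠ x := by
        rintro rfl
        exact hne rfl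
      have h1 := hab y hy' hyx
      have e1 := coordS e.1 α (y 0) ⌊y 0⌋ (hfl y hy' 0) hα k
      have e2 := coordS e.2 β (y 1) ⌊y 1⌋ (hfl y hy' 1) hβ k
      have e3 := coordS e.1 α (x 0) ⌊x 0⌋ (hfl x hx'.1 0) hα k
      have e4 := coordS e.2 β (x 1) ⌊x 1⌋ (hfl x hx'.1 1) hβ k
      simp only [φ]
      rw [e1, e2, e3, e4]
      linarith
  calc X.card ≤ ((Finset.univ : Finset (Bool × Bool)).biUnion Xe).card := Finset.card_le_card hcov
    _ ≤ ∑ e : Bool × Bool, (Xe e).card := Finset.card_biUnion_le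
    _ ≤ ∑ e : Bool × Bool, (1 + R ^ 2 + 2 * (k / R + 1)) := Finset.sum_le_sum (fun e _ => hbd e)
    _ = 4 * (1 + R ^ 2 + 2 * (k / R + 1)) := by
        simp

/-- Number of lattice polygons in the square of side `R^3`. -/
theorem count_poly (R : ℕ) (hR : 1 ≤ R) :
    (PolyIn (cube 2 (R ^ 3))).ncard ≤ ((R ^ 3 + 1) ^ 2 + 1) ^ (12 * R ^ 2 + 12) := by
  have h1 : PolyIn (cube 2 (R ^ 3)) =
      {P ∈ PolyIn (cube 2 (R ^ 3)) | (P.extremePoints ℝ).ncard ≤ 12 * R ^ 2 + 12} := by
    ext P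
    simp only [mem_ofPred_eq]
    refine ⟨fun h => ⟨h, ?_⟩, fun h => h.1⟩
    refine (vert_bound (R ^ 3) R hR h).trans ?_
    have : R ^ 3 / R = R ^ 2 := by
      rw [pow_succ R 2]
      exact Nat.mul_div_cancel _ hR
    rw [this]
    ring_nf
    omega
  rw [h1]
  exact count_few 2 (R ^ 3) _

end H555LP
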